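import Pool.Agent.Helper18.RD6.FIN9
import Pool.Agent.Helper19.RD.MAIN12

/-! Project RD: all forms in one bound, with the density form. -/

set_option autoImplicit false

namespace Pool.Agent.Helper18.RD6

open Finset Pool.Agent.Helper18.RD

/-- FIN12 -/
def ST_FIN12 : Prop := ∀ ε : ℝ, 0 < ε → ∃ C κ : ℝ, 0 < C ∧ ∀ (N q1 q2 a P y r l : ℕ) (D : ℝ),
  1 ≤ N → 1 ≤ q1 → 1 ≤ q2 → 1 ≤ y → 1 ≤ l → Nat.Coprime q1 q2 → Nat.Coprime (q1 * q2) a →
  2 ≤ r → Squarefree r → Odd r → Nat.Coprime r (q1 * q2) →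
  (∀ p : ℕ, p.Prime → p ∣ r → l ≤ p) →
  (N : ℝ) ^ ε * Real.sqrt y ≤
    (((Icc 1 y).filter (fun p => p.Prime ∧ ¬ p ∣ q1 * q2)).card : ℝ) →
  (N : ℝ) ^ ε ≤ P → 1 ≤ D →
  (P : ℝ) ≤ D * (1 + (((q1 * q2).primeFactors.filter (fun p => p ≠ 2 ∧ p ≤ P)).card : ℝ)) →
  (((range N).filter (fun n => IsSquare (q1 * q2 * n + a))).card : ℝ) ≤
    C * min (min (min (min (min
      ((N : ℝ) ^ ε * (Real.sqrt r + N / Real.sqrt r + N / l))
      (Real.sqrt N * min ((q1 * q2 : ℕ) / (Nat.totient (q1 * q2) : ℝ)) (1 + Real.log N) +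
        (N : ℝ) ^ ε * y))
      (Real.sqrt N * min ((q1 * q2 : ℕ) / (Nat.totient (q1 * q2) : ℝ)) (1 + Real.log N) +
        (N : ℝ) ^ ε * Real.sqrt (Real.log q1) + (q2.primeFactors.card : ℝ)))
      ((N : ℝ) ^ ε * (Real.sqrt N + Real.log q1 ^ (1 / 4 : ℝ)) + (q2.primeFactors.card : ℝ)))
      (D ^ κ * (N : ℝ) ^ ε * (Real.sqrt N + Real.sqrt (Real.log q1 / P)) +
        (q2.primeFactors.card : ℝ)))
      (D ^ κ * (N : ℝ) ^ ε + D * Real.log q1 / P + (q2.primeFactors.card : ℝ))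

theorem st_FIN12 (h9 : ST_FIN9) (h12 : Pool.Agent.Helper19.RD.ST_MAIN12) : ST_FIN12 := by
  classical
  intro ε hε
  obtain ⟨C9, κ9, hC9, h9⟩ := h9 ε hε
  obtain ⟨C12, δ0, hC12, hδ0, h12⟩ := h12 ε hε
  obtain ⟨δ, hδ⟩ : ∃ δ : ℝ, δ = min δ0 ε := ⟨_, rfl⟩
  have hδ1 : 0 < δ := by rw [hδ]; exact lt_min hδ0 hε
  have hδδ0 : δ ≤ δ0 := by rw [hδ]; exact min_le_left _ _
  have hδε : δ ≤ ε := by rw [hδ]; exact min_le_right _ _
  obtain ⟨κ, hκ⟩ : ∃ κ : ℝ, κ = max κ9 (1 / δ) := ⟨_, rfl⟩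
  have hκ9 : κ9 ≤ κ := by rw [hκ]; exact le_max_left _ _
  have hκδ : 1 / δ ≤ κ := by rw [hκ]; exact le_max_right _ _
  obtain ⟨T, hT⟩ : ∃ T : ℝ, T = (2 : ℝ) ^ (1 / δ) := ⟨_, rfl⟩
  have hT0 : 0 < T := by rw [hT]; positivity
  refine ⟨C9 + C12 + T, κ, by positivity, ?_⟩
  intro N q1 q2 a P y r l D hN hq1 hq2 hy hl hcop hcopa hr2 hrs hro hrc hrl hNy hNP hD hPD
  have hmain := h9 N q1 q2 a P y r l D hN hq1 hq2 hy hl hcop hcopa hr2 hrs hro hrc hrl hNy hNP hD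
    hPD
  have hNr : (1 : ℝ) ≤ N := by exact_mod_cast hN
  have hN0 : (0 : ℝ) < N := by linarith
  have hD0 : 0 < D := by linarith
  have hNε : 1 ≤ (N : ℝ) ^ ε := Real.one_le_rpow hNr hε.le
  have hL0 : 0 ≤ Real.log (q1 : ℝ) := Real.log_natCast_nonneg q1
  have hq12 : 1 ≤ q1 * q2 := Nat.one_le_iff_ne_zero.mpr (by positivity)
  have hPr : (1 : ℝ) ≤ P := hNε.trans hNP
  have hP1 : 1 ≤ P := by exact_mod_cast hPr
  obtain ⟨om, hom⟩ : ∃ om : ℝ, om = (q2.primeFactors.card : ℝ) := ⟨_, rfl⟩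
  have hom0 : 0 ≤ om := by rw [hom]; positivity
  obtain ⟨X, hX⟩ : ∃ X : ℝ,
    X = (((range N).filter (fun n => IsSquare (q1 * q2 * n + a))).card : ℝ) := ⟨_, rfl⟩
  have hXN : X ≤ N := by
    rw [hX]
    have h1 : ((range N).filter (fun n => IsSquare (q1 * q2 * n + a))).card ≤ (range N).card :=
      card_filter_le _ _
    rw [card_range] at h1
    exact_mod_cast h1
  obtain ⟨n, hn⟩ : ∃ n : ℕ, n = ((q1 * q2).primeFactors.filter (fun p => p ≠ 2 ∧ p ≤ P)).card :=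
    ⟨_, rfl⟩
  have hDκ1 : 1 ≤ D ^ κ := Real.one_le_rpow hD ((by positivity : (0 : ℝ) ≤ 1 / δ).trans hκδ)
  obtain ⟨W, hW⟩ : ∃ W : ℝ, W = Real.sqrt N + Real.sqrt (Real.log q1 / P) := ⟨_, rfl⟩
  have hW1 : 1 ≤ W := by
    rw [hW]
    have h1 : 1 ≤ Real.sqrt N := Real.one_le_sqrt.2 hNr
    have h2 : 0 ≤ Real.sqrt (Real.log q1 / P) := Real.sqrt_nonneg _
    linarith
  -- the new term
  have hnew : X ≤ (C9 + C12 + T) * (D ^ κ * (N : ℝ) ^ ε * W + om) := by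
    rcases lt_or_ge ((N : ℝ) ^ δ) (2 * D) with h | h
    · -- trivial case
      have h1 : (N : ℝ) ≤ T * D ^ κ := by
        calc (N : ℝ) = ((N : ℝ) ^ δ) ^ (1 / δ) := by
              rw [← Real.rpow_mul hN0.le, mul_one_div_cancel hδ1.ne', Real.rpow_one]
          _ ≤ (2 * D) ^ (1 / δ) :=
              Real.rpow_le_rpow (by positivity) h.le (by positivity)
          _ = T * D ^ (1 / δ) := by rw [Real.mul_rpow (by norm_num) hD0.le, hT]
          _ ≤ T * D ^ κ := by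
              apply mul_le_mul_of_nonneg_left _ hT0.le
              exact Real.rpow_le_rpow_of_exponent_le hD hκδ
      calc X ≤ N := hXN
        _ ≤ T * D ^ κ := h1
        _ = T * (D ^ κ * 1 * 1) := by ring
        _ ≤ T * (D ^ κ * (N : ℝ) ^ ε * W) := by gcongr
        _ ≤ T * (D ^ κ * (N : ℝ) ^ ε * W + om) := by
            apply mul_le_mul_of_nonneg_left _ hT0.le
            linarith
        _ ≤ (C9 + C12 + T) * (D ^ κ * (N : ℝ) ^ ε * W + om) := by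
            apply mul_le_mul_of_nonneg_right _ (by positivity)
            linarith
    · have hn1 : 1 ≤ n := by
        rcases Nat.eq_zero_or_pos n with h0 | h0
        · exfalso
          rw [← hn, h0] at hPD
          have h1 : (P : ℝ) ≤ D := by
            have : (P : ℝ) ≤ D * (1 + ((0 : ℕ) : ℝ)) := hPD
            simpa using this
          have h2 : (N : ℝ) ^ δ ≤ (N : ℝ) ^ ε := Real.rpow_le_rpow_of_exponent_le hNr hδε
          linarith
        · exact h0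
      have hn1r : (1 : ℝ) ≤ n := by exact_mod_cast hn1
      have h1 : (P : ℝ) ≤ (N : ℝ) ^ δ0 * n := by
        have h2 : (P : ℝ) ≤ D * (1 + (n : ℝ)) := by rw [hn]; exact hPD
        have h3 : (N : ℝ) ^ δ ≤ (N : ℝ) ^ δ0 := Real.rpow_le_rpow_of_exponent_le hNr hδδ0
        calc (P : ℝ) ≤ D * (1 + (n : ℝ)) := h2
          _ ≤ D * (2 * n) := by gcongr; linarith
          _ = (2 * D) * n := by ring
          _ ≤ (N : ℝ) ^ δ0 * n := by gcongr; linarith
      have hcard : n ≤ ((Icc 1 P).filter (fun p => p.Prime ∧ p ∣ q1 * q2)).card := by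
        rw [hn]
        apply card_le_card
        intro p hp
        rw [mem_filter, Nat.mem_primeFactors] at hp
        rw [mem_filter, mem_Icc]
        exact ⟨⟨hp.1.1.one_lt.le, hp.2.2⟩, hp.1.1, hp.1.2.1⟩
      have hcr : (n : ℝ) ≤ (((Icc 1 P).filter (fun p => p.Prime ∧ p ∣ q1 * q2)).card : ℝ) := by
        exact_mod_cast hcard
      have hdens : (N : ℝ) ^ (-δ0) * P ≤
          (((Icc 1 P).filter (fun p => p.Prime ∧ p ∣ q1 * q2)).card : ℝ) := by
        refine le_trans ?_ hcr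
        rw [Real.rpow_neg hN0.le, inv_mul_le_iff₀ (by positivity)]
        exact h1
      have h2 := h12 N q1 q2 a P hN hq1 hq2 hP1 hcop hcopa hdens
      rw [← hX, ← hW, ← hom] at h2
      calc X ≤ C12 * ((N : ℝ) ^ ε * W + om) := h2
        _ = C12 * (1 * (N : ℝ) ^ ε * W + om) := by ring
        _ ≤ C12 * (D ^ κ * (N : ℝ) ^ ε * W + om) := by gcongr
        _ ≤ (C9 + C12 + T) * (D ^ κ * (N : ℝ) ^ ε * W + om) := by
            apply mul_le_mul_of_nonneg_right _ (by positivity)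
            linarith
  rw [← hX, ← hom] at hmain ⊢
  rw [← hW]
  have hCC : 0 ≤ C9 + C12 + T := by positivity
  have hC9C : C9 ≤ C9 + C12 + T := by linarith
  have hlogN : 0 ≤ Real.log (N : ℝ) := Real.log_natCast_nonneg N
  have hDκ : D ^ κ9 ≤ D ^ κ := Real.rpow_le_rpow_of_exponent_le hD hκ9
  rw [mul_min_of_nonneg _ _ hC9.le, mul_min_of_nonneg _ _ hC9.le, mul_min_of_nonneg _ _ hC9.le,
    mul_min_of_nonneg _ _ hC9.le] at hmain
  obtain ⟨h1234, h5⟩ := le_min_iff.1 hmain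
  obtain ⟨h123, h4⟩ := le_min_iff.1 h1234
  obtain ⟨h12', h3⟩ := le_min_iff.1 h123
  obtain ⟨h1, h2⟩ := le_min_iff.1 h12'
  have hmρ : 0 ≤ min (((q1 * q2 : ℕ) : ℝ) / (Nat.totient (q1 * q2) : ℝ)) (1 + Real.log N) :=
    le_min (by positivity) (by linarith)
  rw [mul_min_of_nonneg _ _ hCC, mul_min_of_nonneg _ _ hCC, mul_min_of_nonneg _ _ hCC,
    mul_min_of_nonneg _ _ hCC, mul_min_of_nonneg _ _ hCC]
  refine le_min (le_min (le_min (le_min (le_min ?_ ?_) ?_) ?_) hnew) ?_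
  · exact h1.trans (mul_le_mul_of_nonneg_right hC9C (by positivity))
  · exact h2.trans (mul_le_mul_of_nonneg_right hC9C (by positivity))
  · exact h3.trans (mul_le_mul_of_nonneg_right hC9C (by positivity))
  · exact h4.trans (mul_le_mul_of_nonneg_right hC9C (by positivity))
  · refine h5.trans ?_
    have hP0 : (0 : ℝ) < P := by linarith
    have e1 : D ^ κ9 * (N : ℝ) ^ ε + D * Real.log q1 / P + om ≤
        D ^ κ * (N : ℝ) ^ ε + D * Real.log q1 / P + om := by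
      have : D ^ κ9 * (N : ℝ) ^ ε ≤ D ^ κ * (N : ℝ) ^ ε :=
        mul_le_mul_of_nonneg_right hDκ (by positivity)
      linarith
    exact (mul_le_mul_of_nonneg_left e1 hC9.le).trans
      (mul_le_mul_of_nonneg_right hC9C (by positivity))

end Pool.Agent.Helper18.RD6
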