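import Pool.Agent.Helper18.RD6.SPRG
import Pool.Agent.Helper30.RD9.MAIN11

/-! Project RD: a modulus `r` coprime to `q` all of whose primes are at least `l`; error
`N / l ^ K` for every `K`. -/

set_option autoImplicit false

namespace Pool.Agent.Helper18.RD6

open Finset Pool.Agent.Helper18.RD Pool.Agent.Helper19.RD
open Pool.Agent.Helper30.RD9 (ST_A1P)

/-- MAIN13 -/
def ST_MAIN13 : Prop := ∀ ε K : ℝ, 0 < ε → 0 < K → ∃ C : ℝ, 0 < C ∧ ∀ N q a r l : ℕ, 1 ≤ N →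
  1 ≤ q → 1 ≤ l → Nat.Coprime q a → Squarefree r → Odd r → Nat.Coprime r q →
  (∀ p : ℕ, p.Prime → p ∣ r → l ≤ p) →
  (((range N).filter (fun n => IsSquare (q * n + a))).card : ℝ) ≤
    C * ((N : ℝ) ^ ε * (Real.sqrt r + N / Real.sqrt r + N / (l : ℝ) ^ K))

/-- `TN` is monotone in the set -/
lemma TN_mono (J J' : Finset ℕ) (d : ℕ → ℕ → ℤ) (h : J' ⊆ J) : (TN J' d).card ≤ (TN J d).card := by
  apply card_le_card
  intro t ht
  rw [TN, mem_filter] at ht ⊢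
  refine ⟨?_, ht.2⟩
  have h1 := ht.1
  rw [T4] at h1 ⊢
  simp only [mem_filter, mem_product] at h1 ⊢
  obtain ⟨⟨a1, a2, a3, a4⟩, a5⟩ := h1
  exact ⟨⟨h a1, h a2, h a3, h a4⟩, a5⟩

theorem st_MAIN13 (hA : ST_A1P) (hP : ST_PGX) (hS : ST_SPRG) : ST_MAIN13 := by
  classical
  intro ε K hε hK
  obtain ⟨ε1, hε1⟩ : ∃ ε1 : ℝ, ε1 = min ε (1 / 10) := ⟨_, rfl⟩
  have hε1a : 0 < ε1 := by rw [hε1]; exact lt_min hε (by norm_num)
  have hε1b : ε1 ≤ ε := by rw [hε1]; exact min_le_left _ _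
  have hε1c : ε1 ≤ 1 / 10 := by rw [hε1]; exact min_le_right _ _
  obtain ⟨η, hη⟩ : ∃ η : ℝ, η = ε / K := ⟨_, rfl⟩
  have hη0 : 0 < η := by rw [hη]; positivity
  obtain ⟨δ, N0, hδ, hδε, hA⟩ := hA ε1 (η / 4) hε1a hε1c (by linarith)
  obtain ⟨κ, hκ⟩ : ∃ κ : ℝ, κ = ε1 / 8 * (3 * η / 4) := ⟨_, rfl⟩
  have hκ0 : 0 < κ := by rw [hκ]; positivity
  obtain ⟨N2, hN2⟩ : ∃ N2 : ℕ, ∀ N : ℕ, N2 ≤ N →
      (128 : ℝ) ≤ (N : ℝ) ^ δ ∧ 200 * (2 / η) ≤ (N : ℝ) ^ κ ∧ (2 : ℝ) ≤ N := by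
    have h1 : ∀ᶠ x : ℝ in Filter.atTop, (128 : ℝ) ≤ x ^ δ :=
      (tendsto_rpow_atTop hδ).eventually_ge_atTop 128
    have h3 : ∀ᶠ x : ℝ in Filter.atTop, 200 * (2 / η) ≤ x ^ κ :=
      (tendsto_rpow_atTop hκ0).eventually_ge_atTop _
    have h4 : ∀ᶠ x : ℝ in Filter.atTop, (128 : ℝ) ≤ x ^ δ ∧
        200 * (2 / η) ≤ x ^ κ ∧ (2 : ℝ) ≤ x := by
      filter_upwards [h1, h3, Filter.eventually_ge_atTop 2] with x a1 a3 a4
      exact ⟨a1, a3, a4⟩
    obtain ⟨N2, hN2⟩ := Filter.eventually_atTop.mp (tendsto_natCast_atTop_atTop.eventually h4)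
    exact ⟨N2, fun N hN => hN2 N hN⟩
  obtain ⟨C, hC⟩ : ∃ C : ℝ, C = N0 + N2 + 1000 := ⟨_, rfl⟩
  have hN0' : (0 : ℝ) ≤ N0 := Nat.cast_nonneg _
  have hN2' : (0 : ℝ) ≤ N2 := Nat.cast_nonneg _
  have hC100 : 1000 ≤ C := by rw [hC]; linarith
  have hCpos : 0 < C := by linarith
  refine ⟨C, hCpos, ?_⟩
  intro N q a r l hN hq hl hcopa hrsq hrodd hrq hrl
  have hNr : (1 : ℝ) ≤ N := by exact_mod_cast hN
  have hNpos : (0 : ℝ) < N := by linarith
  have hr0 : r ≠ 0 := hrsq.ne_zero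
  have hrpos : (0 : ℝ) < r := by exact_mod_cast Nat.pos_of_ne_zero hr0
  have hr1 : (1 : ℝ) ≤ r := by exact_mod_cast Nat.pos_of_ne_zero hr0
  have hsr1 : 1 ≤ Real.sqrt r := Real.one_le_sqrt.2 hr1
  have hsr0 : 0 < Real.sqrt r := by linarith
  have hlr : (1 : ℝ) ≤ l := by exact_mod_cast hl
  have hlK : (1 : ℝ) ≤ (l : ℝ) ^ K := Real.one_le_rpow hlr hK.le
  change ((SS N q a).card : ℝ) ≤ _
  obtain ⟨R, hR⟩ : ∃ R : ℝ, R = ((SS N q a).card : ℝ) := ⟨_, rfl⟩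
  rw [← hR]
  have hRN : R ≤ N := by
    have h1 : (SS N q a).card ≤ N := by
      calc (SS N q a).card ≤ (range N).card := card_filter_le _ _
        _ = N := card_range N
    rw [hR]; exact_mod_cast h1
  by_contra hcon
  push Not at hcon
  have hNε : 1 ≤ (N : ℝ) ^ ε := Real.one_le_rpow hNr hε.le
  obtain ⟨Z, hZ⟩ : ∃ Z : ℝ, Z = Real.sqrt r + N / Real.sqrt r := ⟨_, rfl⟩
  have hNdr : 0 ≤ (N : ℝ) / Real.sqrt r := by positivity
  have hNdl : 0 ≤ (N : ℝ) / (l : ℝ) ^ K := by positivity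
  have hZ1 : 1 ≤ Z := by rw [hZ]; linarith
  have hZN : Real.sqrt N ≤ Z := by
    have h1 : 0 ≤ Real.sqrt N := Real.sqrt_nonneg _
    have h2 : Real.sqrt N * Real.sqrt N = N := Real.mul_self_sqrt hNpos.le
    rcases le_total (Real.sqrt N) (Real.sqrt r) with h | h
    · rw [hZ]; linarith
    · have h3 : Real.sqrt N ≤ (N : ℝ) / Real.sqrt r := by
        rw [le_div_iff₀ hsr0]
        calc Real.sqrt N * Real.sqrt r ≤ Real.sqrt N * Real.sqrt N := by gcongr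
          _ = N := h2
      rw [hZ]; linarith
  have hcon1 : C * ((N : ℝ) ^ ε * Z) < R := by
    refine lt_of_le_of_lt ?_ hcon
    apply mul_le_mul_of_nonneg_left _ hCpos.le
    apply mul_le_mul_of_nonneg_left _ (by positivity)
    rw [hZ]; linarith
  have hcon2 : C * ((N : ℝ) ^ ε * (N / (l : ℝ) ^ K)) < N := by
    refine lt_of_le_of_lt ?_ (hcon.trans_le hRN)
    apply mul_le_mul_of_nonneg_left _ hCpos.le
    apply mul_le_mul_of_nonneg_left _ (by positivity)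
    linarith
  have hNC : C ≤ N := by
    have h1 : C * (1 * 1) ≤ C * ((N : ℝ) ^ ε * Z) := by gcongr
    linarith
  have hNN0 : N0 ≤ N := by
    have : (N0 : ℝ) ≤ N := by linarith
    exact_mod_cast this
  have hNN2 : N2 ≤ N := by
    have : (N2 : ℝ) ≤ N := by linarith
    exact_mod_cast this
  obtain ⟨hb1, hb3, hb4⟩ := hN2 N hNN2
  -- l is large
  have hlbig : (N : ℝ) ^ η ≤ l := by
    have h1 : (N : ℝ) ^ ε ≤ (l : ℝ) ^ K := by
      have h2 : C * ((N : ℝ) ^ ε * (N / (l : ℝ) ^ K)) = C * (N : ℝ) ^ ε * N / (l : ℝ) ^ K := by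
        ring
      rw [h2, div_lt_iff₀ (by positivity)] at hcon2
      have h3 : (N : ℝ) ^ ε * N ≤ C * (N : ℝ) ^ ε * N := by
        have : 1 * ((N : ℝ) ^ ε * N) ≤ C * ((N : ℝ) ^ ε * N) := by gcongr; linarith
        linarith
      have h4 : (N : ℝ) * (N : ℝ) ^ ε ≤ N * (l : ℝ) ^ K := by linarith
      exact le_of_mul_le_mul_left h4 hNpos
    have h2 : (N : ℝ) ^ η = ((N : ℝ) ^ ε) ^ (1 / K) := by
      rw [← Real.rpow_mul hNpos.le, hη]; congr 1; ring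
    have h3 : ((l : ℝ) ^ K) ^ (1 / K) = l := by
      rw [← Real.rpow_mul (by positivity), mul_one_div_cancel hK.ne', Real.rpow_one]
    rw [h2, ← h3]
    exact Real.rpow_le_rpow (by positivity) h1 (by positivity)
  -- r is at most N ^ 2
  have hrN : (r : ℝ) ≤ (N : ℝ) ^ 2 := by
    have h1 : Real.sqrt r ≤ N := by
      have h2 : 1 * (1 * Real.sqrt r) ≤ C * ((N : ℝ) ^ ε * Z) := by
        have : Real.sqrt r ≤ Z := by rw [hZ]; linarith
        gcongr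
        linarith
      linarith
    calc (r : ℝ) = Real.sqrt r ^ 2 := (Real.sq_sqrt hrpos.le).symm
      _ ≤ (N : ℝ) ^ 2 := by gcongr
  have hbig : (N : ℝ) ^ (1 / 2 + ε1) ≤ ((SS N q a).card : ℝ) := by
    rw [← hR]
    calc (N : ℝ) ^ (1 / 2 + ε1) ≤ (N : ℝ) ^ (1 / 2 + ε) :=
          Real.rpow_le_rpow_of_exponent_le hNr (by linarith)
      _ = (N : ℝ) ^ ε * Real.sqrt N := by
          rw [Real.sqrt_eq_rpow, ← Real.rpow_add hNpos]; congr 1; ring
      _ ≤ 1 * ((N : ℝ) ^ ε * Z) := by rw [one_mul]; gcongr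
      _ ≤ C * ((N : ℝ) ^ ε * Z) := by
          apply mul_le_mul_of_nonneg_right _ (by positivity)
          linarith
      _ ≤ R := hcon1.le
  obtain ⟨S, J, e, c, d, k, w, m, b, hdat, hJS, hJ, hrow, hTN⟩ := hA N q a hNN0 hq hcopa hbig
  rw [← hR] at hJ
  have hJsub : J ⊆ range N := by
    intro i hi
    exact (mem_filter.mp (hdat.sub (hJS hi))).1
  -- J is large
  have hJbig : C * Z < J.card := by
    have h3 : (N : ℝ) ^ (ε1 / 4) ≤ (N : ℝ) ^ ε :=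
      Real.rpow_le_rpow_of_exponent_le hNr (by linarith)
    have h4 : (N : ℝ) ^ (ε1 / 4) * J.card ≤ (N : ℝ) ^ ε * J.card := by gcongr
    have h5 : (N : ℝ) ^ ε * (C * Z) < (N : ℝ) ^ ε * J.card := by
      calc (N : ℝ) ^ ε * (C * Z) = C * ((N : ℝ) ^ ε * Z) := by ring
        _ < R := hcon1
        _ ≤ _ := hJ.trans h4
    exact lt_of_mul_lt_mul_left h5 (by positivity)
  have hJ1000 : (1000 : ℝ) ≤ J.card := by nlinarith
  have hJne : J.Nonempty := by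
    rw [← card_pos]
    have : (0 : ℝ) < J.card := by linarith
    exact_mod_cast this
  -- the rows
  obtain ⟨ρ, hρ⟩ : ∃ ρ : ℝ, ρ = (N : ℝ) ^ (-κ) := ⟨_, rfl⟩
  have hρ0 : 0 < ρ := by rw [hρ]; positivity
  have hρ1 : 200 * (2 / η) * ρ ≤ 1 := by
    rw [hρ]
    calc 200 * (2 / η) * (N : ℝ) ^ (-κ) ≤ (N : ℝ) ^ κ * (N : ℝ) ^ (-κ) := by gcongr
      _ = 1 := by rw [← Real.rpow_add hNpos]; simp
  obtain ⟨PS, hPS⟩ : ∃ PS : Finset ℕ, PS = r.primeFactors := ⟨_, rfl⟩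
  have hPSp : ∀ p ∈ PS, p.Prime ∧ ¬ p ∣ q ∧ (N : ℝ) ^ η ≤ p ∧ p ∣ r ∧ p ≠ 2 := by
    intro p hp
    rw [hPS] at hp
    have h1 := Nat.prime_of_mem_primeFactors hp
    have h2 := Nat.dvd_of_mem_primeFactors hp
    refine ⟨h1, ?_, ?_, h2, ?_⟩
    · intro h
      have h5 := Nat.dvd_gcd h2 h
      rw [hrq] at h5
      exact h1.one_lt.ne' (Nat.dvd_one.1 h5)
    · have : (l : ℝ) ≤ p := by exact_mod_cast hrl p h1 h2
      linarith
    · rintro rfl
      exact (Nat.not_even_iff_odd.2 hrodd) (even_iff_two_dvd.2 h2)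
  have hPSc : (PS.card : ℝ) ≤ 2 / η := by
    have h1 := Pool.Agent.Helper30.RD9.prod_ge PS ((N : ℝ) ^ η) (by positivity)
      (fun p hp => (hPSp p hp).2.2.1)
    have h2 : ∏ p ∈ PS, (p : ℝ) = r := by
      rw [hPS, ← Nat.cast_prod, Nat.prod_primeFactors_of_squarefree hrsq]
    rw [h2] at h1
    have h3 : (N : ℝ) ^ (η * PS.card) ≤ (N : ℝ) ^ (2 : ℝ) := by
      rw [Real.rpow_mul hNpos.le, Real.rpow_natCast, Real.rpow_two]
      exact h1.trans hrN
    have h4 : η * PS.card ≤ 2 := (Real.rpow_le_rpow_left_iff (by linarith)).1 h3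
    rw [le_div_iff₀ hη0]
    linarith
  have hrow' : ∀ p ∈ PS, ∀ i ∈ J,
      ((J.filter (fun j => i ≠ j ∧ (d i j).natAbs.factorization p ≠ b p)).card : ℝ) ≤
        ρ * J.card := by
    intro p hp i hi
    obtain ⟨h1, h2, h3, h4, h5⟩ := hPSp p hp
    refine (hrow i hi p h1 h5).trans ?_
    apply mul_le_mul_of_nonneg_right _ (by positivity)
    have h6 : (p : ℝ) ^ (-(ε1 / 8)) ≤ ((N : ℝ) ^ η) ^ (-(ε1 / 8)) :=
      Real.rpow_le_rpow_of_nonpos (by positivity) h3 (by linarith)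
    calc (N : ℝ) ^ (ε1 / 8 * (η / 4)) * (p : ℝ) ^ (-(ε1 / 8))
        ≤ (N : ℝ) ^ (ε1 / 8 * (η / 4)) * ((N : ℝ) ^ η) ^ (-(ε1 / 8)) := by gcongr
      _ = ρ := by
          rw [← Real.rpow_mul hNpos.le, ← Real.rpow_add hNpos, hρ, hκ]; congr 1; ring
  have hd1 : ∀ i ∈ J, ∀ j ∈ J, i ≠ j → 1 ≤ d i j := fun i hi j hj hij =>
    hdat.pos i (hJS hi) j (hJS hj) hij
  -- bad and good primes
  obtain ⟨Tb, hTb⟩ : ∃ Tb : Finset ℕ, Tb = PS.filter (fun p => b p ≠ 0) := ⟨_, rfl⟩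
  obtain ⟨Tg, hTg⟩ : ∃ Tg : Finset ℕ, Tg = PS.filter (fun p => b p = 0) := ⟨_, rfl⟩
  have hTbP : ∀ p ∈ Tb, p ∈ PS ∧ b p ≠ 0 := fun p hp => by
    rw [hTb] at hp; exact mem_filter.mp hp
  have hTgP : ∀ p ∈ Tg, p ∈ PS ∧ b p = 0 := fun p hp => by
    rw [hTg] at hp; exact mem_filter.mp hp
  have hTbc : (Tb.card : ℝ) ≤ 2 / η := by
    refine le_trans ?_ hPSc
    exact_mod_cast card_le_card (fun p hp => (hTbP p hp).1)
  have hTgc : (Tg.card : ℝ) ≤ 2 / η := by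
    refine le_trans ?_ hPSc
    exact_mod_cast card_le_card (fun p hp => (hTgP p hp).1)
  obtain ⟨u, hu⟩ : ∃ u : ℕ, u = ∏ p ∈ Tb, p := ⟨_, rfl⟩
  obtain ⟨r', hr'⟩ : ∃ r' : ℕ, r' = ∏ p ∈ Tg, p := ⟨_, rfl⟩
  have hTbpr : ∀ p ∈ Tb, p.Prime := fun p hp => (hPSp p (hTbP p hp).1).1
  have hTgpr : ∀ p ∈ Tg, p.Prime := fun p hp => (hPSp p (hTgP p hp).1).1
  have hu0 : 0 < u := by rw [hu]; exact prod_pos fun p hp => (hTbpr p hp).pos
  have hr'0 : 0 < r' := by rw [hr']; exact prod_pos fun p hp => (hTgpr p hp).pos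
  have hrur : r = u * r' := by
    rw [hu, hr', hTb, hTg]
    have h1 := prod_filter_mul_prod_filter_not PS (fun p => b p = 0) (fun p => p)
    have h2 : ∏ p ∈ PS, p = r := by
      rw [hPS]; exact Nat.prod_primeFactors_of_squarefree hrsq
    rw [← h2, ← h1, mul_comm]
  have hrf' : r'.primeFactors = Tg := by rw [hr']; exact Nat.primeFactors_prod hTgpr
  have hr'r : r' ∣ r := by rw [hrur]; exact dvd_mul_left _ _
  have hr'sq : Squarefree r' := hrsq.squarefree_of_dvd hr'r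
  have hr'odd : Odd r' := hrodd.of_dvd_nat hr'r
  have hr'q : Nat.Coprime r' q := Nat.Coprime.coprime_dvd_left hr'r hrq
  have hr'u : Nat.Coprime r' u := by
    have h1 : Squarefree (u * r') := by rw [← hrur]; exact hrsq
    exact (Nat.coprime_of_squarefree_mul h1).symm
  have hr'mem : ∀ p : ℕ, p.Prime → p ∣ r' → p ∈ Tg := by
    intro p hp hpr
    rw [← hrf']
    exact Nat.mem_primeFactors.2 ⟨hp, hpr, hr'0.ne'⟩
  -- the class
  obtain ⟨i0, hi0⟩ := hJne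
  obtain ⟨J', hJ'⟩ : ∃ J' : Finset ℕ, J' = J.filter (fun j : ℕ => (u : ℤ) ∣ (i0 : ℤ) - j) :=
    ⟨_, rfl⟩
  have hJ'J : J' ⊆ J := by rw [hJ']; exact filter_subset _ _
  have hJ'u : ∀ i ∈ J', ∀ j ∈ J', (u : ℤ) ∣ (i : ℤ) - j := by
    intro i hi j hj
    rw [hJ', mem_filter] at hi hj
    have h1 := dvd_sub hj.2 hi.2
    have h2 : (i0 : ℤ) - j - (i0 - i) = i - j := by ring
    rwa [h2] at h1
  have hJ'c : (3 / 4 : ℝ) * J.card ≤ J'.card := by
    have h1 := Pool.Agent.Helper30.RD9.card_ex J Tb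
      (fun p j => i0 ≠ j ∧ (d i0 j).natAbs.factorization p ≠ b p)
      (ρ * J.card) (fun p hp => hrow' p (hTbP p hp).1 i0 hi0)
    have h2 : (Tb.card : ℝ) * (ρ * J.card) ≤ J.card / 4 := by
      have h3 : (Tb.card : ℝ) * ρ ≤ 1 / 4 := by nlinarith
      calc (Tb.card : ℝ) * (ρ * J.card) = (Tb.card * ρ) * J.card := by ring
        _ ≤ 1 / 4 * J.card := mul_le_mul_of_nonneg_right h3 (Nat.cast_nonneg _)
        _ = _ := by ring
    have h3 : J ⊆ (J.filter (fun j => ∃ p ∈ Tb, i0 ≠ j ∧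
        (d i0 j).natAbs.factorization p ≠ b p)) ∪ J' := by
      intro j hj
      rw [mem_union, mem_filter]
      by_cases hji : j = i0
      · right
        rw [hJ', mem_filter, hji]
        exact ⟨hi0, by simp⟩
      · by_cases hex : ∃ p ∈ Tb, i0 ≠ j ∧ (d i0 j).natAbs.factorization p ≠ b p
        · left; exact ⟨hj, hex⟩
        · right
          rw [hJ', mem_filter]
          refine ⟨hj, ?_⟩
          push Not at hex
          have hne : i0 ≠ j := fun h => hji h.symm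
          rw [Int.natCast_dvd, hu]
          refine Finset.prod_primes_dvd _ (fun p hp => (hTbpr p hp).prime) ?_
          intro p hp
          obtain ⟨a1, a2, a3, a4, a5⟩ := hPSp p (hTbP p hp).1
          have h5 := hex p hp hne
          have h6 : (d i0 j).natAbs.factorization p ≠ 0 := by
            rw [h5]; exact (hTbP p hp).2
          have h7 : p ∣ (d i0 j).natAbs := Nat.dvd_of_factorization_pos h6
          have hcd := hdat.dat.cd i0 (hJS hi0) j (hJS hj) hne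
          have h8 : (p : ℤ) ∣ k * ((i0 : ℤ) - j) := by
            rw [← hcd]
            exact Dvd.dvd.mul_left (Int.natCast_dvd.2 h7) _
          have h9 : IsCoprime (p : ℤ) k := by
            rcases hdat.dat.kap with h | h
            · rw [h]; exact isCoprime_one_right
            · rw [h]
              have : Nat.Coprime p 2 := (Nat.coprime_primes a1 Nat.prime_two).2 a5
              exact_mod_cast Nat.isCoprime_iff_coprime.2 this
          exact Int.natCast_dvd.1 (h9.dvd_of_dvd_mul_left h8)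
    have h4 := card_le_card h3
    have h5 := card_union_le (J.filter (fun j => ∃ p ∈ Tb, i0 ≠ j ∧
        (d i0 j).natAbs.factorization p ≠ b p)) J'
    have h8 : (J.card : ℝ) ≤ ((J.filter (fun j => ∃ p ∈ Tb, i0 ≠ j ∧
        (d i0 j).natAbs.factorization p ≠ b p)).card : ℝ) + J'.card := by
      exact_mod_cast h4.trans h5
    linarith
  have hJc0 : (0 : ℝ) < J.card := by linarith
  have hJ'c0 : (0 : ℝ) < J'.card := by linarith
  have hJJ' : (J.card : ℝ) ≤ 4 / 3 * J'.card := by linarith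
  have hJ'100 : (100 : ℝ) ≤ J'.card := by linarith
  have hJ'100' : 100 ≤ J'.card := by exact_mod_cast hJ'100
  have hTρ : 200 * (Tg.card : ℝ) * ρ ≤ 1 := by
    refine le_trans ?_ hρ1
    gcongr
  -- a prime of Tg dividing m i + m j divides d i j
  have hmd : ∀ p ∈ Tg, ∀ i ∈ J, ∀ j ∈ J, i ≠ j → (p : ℤ) ∣ m i + m j →
      (d i j).natAbs.factorization p ≠ b p := by
    intro p hp i hi j hj hij hdvd
    obtain ⟨a1, a2, a3, a4, a5⟩ := hPSp p (hTgP p hp).1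
    rw [(hTgP p hp).2]
    obtain ⟨v, hv1, hv2⟩ := hdat.dv i (hJS hi) j (hJS hj) hij
    rw [← hv2] at hdvd
    have hpp : Prime (p : ℤ) := Nat.prime_iff_prime_int.1 a1
    have h1 : (p : ℤ) ∣ d i j := by
      rcases hpp.dvd_or_dvd hdvd with h | h
      · exact absurd ((Int.natCast_dvd_natCast.1 h).trans hv1) a2
      · exact h
    have h2 : p ∣ (d i j).natAbs := Int.natCast_dvd.1 h1
    have h3 : (d i j).natAbs ≠ 0 := by
      have := hd1 i hi j hj hij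
      omega
    exact (a1.factorization_pos_of_dvd h3 h2).ne'
  have hrows : ∀ i ∈ J', ∀ p : ℕ, p.Prime → p ∣ r' →
      ((J'.filter (fun j => i ≠ j ∧ (p : ℤ) ∣ m i + m j)).card : ℝ) ≤ (2 * ρ) * J'.card := by
    intro i hi p hp hpr
    have hpT := hr'mem p hp hpr
    have h1 : J'.filter (fun j => i ≠ j ∧ (p : ℤ) ∣ m i + m j) ⊆
        J.filter (fun j => i ≠ j ∧ (d i j).natAbs.factorization p ≠ b p) := by
      intro j hj
      rw [mem_filter] at hj ⊢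
      exact ⟨hJ'J hj.1, hj.2.1, hmd p hpT i (hJ'J hi) j (hJ'J hj.1) hj.2.1 hj.2.2⟩
    have h2 := hrow' p (hTgP p hpT).1 i (hJ'J hi)
    have h3 : ((J'.filter (fun j => i ≠ j ∧ (p : ℤ) ∣ m i + m j)).card : ℝ) ≤
        ((J.filter (fun j => i ≠ j ∧ (d i j).natAbs.factorization p ≠ b p)).card : ℝ) := by
      exact_mod_cast card_le_card h1
    have h4 : ρ * (J.card : ℝ) ≤ ρ * (4 / 3 * J'.card) := by gcongr
    nlinarith
  -- the bad pairs
  obtain ⟨B, hB⟩ : ∃ B : Finset (ℕ × ℕ), B = J'.biUnion (fun i =>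
    (J'.filter (fun j => ∃ p ∈ Tg, i ≠ j ∧ (p : ℤ) ∣ m i + m j)).image (fun j => (i, j))) :=
    ⟨_, rfl⟩
  have hBc : 4 * B.card ≤ J'.card ^ 2 := by
    have h1 : (B.card : ℝ) ≤ J'.card * (Tg.card * (2 * ρ * J'.card)) := by
      rw [hB]
      calc (((J'.biUnion (fun i => (J'.filter (fun j => ∃ p ∈ Tg, i ≠ j ∧
            (p : ℤ) ∣ m i + m j)).image (fun j => (i, j)))).card : ℕ) : ℝ)
          ≤ ∑ i ∈ J', ((((J'.filter (fun j => ∃ p ∈ Tg, i ≠ j ∧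
            (p : ℤ) ∣ m i + m j)).image (fun j => (i, j))).card : ℕ) : ℝ) := by
            exact_mod_cast card_biUnion_le
        _ ≤ ∑ _i ∈ J', ((Tg.card : ℝ) * (2 * ρ * J'.card)) := by
            apply sum_le_sum
            intro i hi
            have h2 := Pool.Agent.Helper30.RD9.card_ex J' Tg
              (fun p j => i ≠ j ∧ (p : ℤ) ∣ m i + m j) (2 * ρ * J'.card)
              (fun p hp => hrows i hi p (hTgpr p hp) (by
                rw [hr']; exact dvd_prod_of_mem _ hp))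
            refine le_trans ?_ h2
            exact_mod_cast card_image_le
        _ = J'.card * (Tg.card * (2 * ρ * J'.card)) := by rw [sum_const, nsmul_eq_mul]
    have h2 : (4 * B.card : ℝ) ≤ (J'.card : ℝ) ^ 2 := by
      have h3 : (8 * (Tg.card * ρ) : ℝ) ≤ 1 := by nlinarith
      have h4 : (4 * B.card : ℝ) ≤ 4 * (J'.card * (Tg.card * (2 * ρ * J'.card))) := by linarith
      have h5 : 4 * ((J'.card : ℝ) * (Tg.card * (2 * ρ * J'.card))) =
          (8 * (Tg.card * ρ)) * J'.card ^ 2 := by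
        ring
      have h6 : (8 * (Tg.card * ρ)) * (J'.card : ℝ) ^ 2 ≤ 1 * (J'.card : ℝ) ^ 2 :=
        mul_le_mul_of_nonneg_right h3 (sq_nonneg _)
      linarith
    exact_mod_cast h2
  have hξ0 : (0 : ℝ) ≤ 4 * (N : ℝ) ^ (-δ) := by positivity
  have hTN' : ((TN J' d).card : ℝ) ≤ 4 * (N : ℝ) ^ (-δ) * (J'.card : ℝ) ^ 4 := by
    have h1 : ((TN J' d).card : ℝ) ≤ ((TN J d).card : ℝ) := by
      exact_mod_cast TN_mono J J' d hJ'J
    have h2 : (J.card : ℝ) ^ 4 ≤ (4 / 3 * (J'.card : ℝ)) ^ 4 := pow_le_pow_left₀ hJc0.le hJJ' 4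
    have h3 : (4 / 3 * (J'.card : ℝ)) ^ 4 ≤ 4 * (J'.card : ℝ) ^ 4 := by
      rw [mul_pow]
      exact mul_le_mul_of_nonneg_right (by norm_num) (pow_nonneg hJ'c0.le 4)
    calc ((TN J' d).card : ℝ) ≤ (N : ℝ) ^ (-δ) * (J.card : ℝ) ^ 4 := h1.trans hTN
      _ ≤ (N : ℝ) ^ (-δ) * (4 * (J'.card : ℝ) ^ 4) := by
          apply mul_le_mul_of_nonneg_left (h2.trans h3) (by positivity)
      _ = _ := by ring
  obtain ⟨x, hx, y, hy, hxy, hxyB, hNQ⟩ := hP J' d B (4 * (N : ℝ) ^ (-δ)) (by omega) hξ0 hBc hTN'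
  have hξ16 : 2 * (4 * (N : ℝ) ^ (-δ)) ≤ 1 / 16 := by
    rw [Real.rpow_neg hNpos.le]
    have h1 : ((N : ℝ) ^ δ)⁻¹ ≤ (128 : ℝ)⁻¹ := inv_anti₀ (by norm_num) hb1
    norm_num at h1 ⊢
    linarith
  have hfin := hS N q a r' u S J' e c d k w (2 * (4 * (N : ℝ) ^ (-δ))) (2 * ρ) m x y hN hq hdat
    (hJ'J.trans hJS) hx hy hxy hNQ hξ16 hJ'100' hr'sq hr'odd hr'q hu0 hr'u hJ'u
    (by positivity) hrows ?_ ?_
  · have hur : (1 : ℝ) ≤ u := by exact_mod_cast hu0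
    have hr'r0 : (0 : ℝ) < r' := by exact_mod_cast hr'0
    have hrr : (r : ℝ) = u * r' := by rw [hrur]; push_cast; rfl
    have h1 : Real.sqrt r' ≤ Real.sqrt r := by
      apply Real.sqrt_le_sqrt
      rw [hrr]
      nlinarith
    have h2 : Real.sqrt r ≤ u * Real.sqrt r' := by
      rw [hrr, Real.sqrt_mul (by linarith)]
      apply mul_le_mul_of_nonneg_right _ (Real.sqrt_nonneg _)
      rw [Real.sqrt_le_left (by linarith)]
      nlinarith
    have h3 : (N : ℝ) / (u * Real.sqrt r') ≤ N / Real.sqrt r :=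
      div_le_div_of_nonneg_left hNpos.le hsr0 h2
    have h4 : (J'.card : ℝ) ≤ 2 * Z := by
      rw [hZ]; linarith
    have h5 : (J.card : ℝ) ≤ 3 * Z := by linarith
    nlinarith
  · intro p hp hpr hdvd
    apply hxyB
    rw [hB, mem_biUnion]
    exact ⟨x, hx, mem_image.mpr ⟨y, mem_filter.mpr ⟨hy, p, hr'mem p hp hpr, hxy, hdvd⟩, rfl⟩⟩
  · rw [hrf']
    nlinarith

end Pool.Agent.Helper18.RD6
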