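import Pool.Agent.Helper18.RD6.FIN12
import Pool.Agent.Helper18.RD6.MAIN13

/-! Project RD: all forms in one bound, with the general modulus `r`. -/

set_option autoImplicit false

namespace Pool.Agent.Helper18.RD6

open Finset Pool.Agent.Helper18.RD

/-- FIN13 -/
def ST_FIN13 : Prop := ∀ ε K : ℝ, 0 < ε → 0 < K → ∃ C κ : ℝ, 0 < C ∧
  ∀ (N q1 q2 a P y r l : ℕ) (D : ℝ),
  1 ≤ N → 1 ≤ q1 → 1 ≤ q2 → 1 ≤ y → 1 ≤ l → Nat.Coprime q1 q2 → Nat.Coprime (q1 * q2) a →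
  2 ≤ r → Squarefree r → Odd r → Nat.Coprime r (q1 * q2) →
  (∀ p : ℕ, p.Prime → p ∣ r → l ≤ p) →
  (N : ℝ) ^ ε * Real.sqrt y ≤
    (((Icc 1 y).filter (fun p => p.Prime ∧ ¬ p ∣ q1 * q2)).card : ℝ) →
  (N : ℝ) ^ ε ≤ P → 1 ≤ D →
  (P : ℝ) ≤ D * (1 + (((q1 * q2).primeFactors.filter (fun p => p ≠ 2 ∧ p ≤ P)).card : ℝ)) →
  (((range N).filter (fun n => IsSquare (q1 * q2 * n + a))).card : ℝ) ≤
    C * min (min (min (min (min
      ((N : ℝ) ^ ε * (Real.sqrt r + N / Real.sqrt r + N / (l : ℝ) ^ K))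
      (Real.sqrt N * min ((q1 * q2 : ℕ) / (Nat.totient (q1 * q2) : ℝ)) (1 + Real.log N) +
        (N : ℝ) ^ ε * y))
      (Real.sqrt N * min ((q1 * q2 : ℕ) / (Nat.totient (q1 * q2) : ℝ)) (1 + Real.log N) +
        (N : ℝ) ^ ε * Real.sqrt (Real.log q1) + (q2.primeFactors.card : ℝ)))
      ((N : ℝ) ^ ε * (Real.sqrt N + Real.log q1 ^ (1 / 4 : ℝ)) + (q2.primeFactors.card : ℝ)))
      (D ^ κ * (N : ℝ) ^ ε * (Real.sqrt N + Real.sqrt (Real.log q1 / P)) +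
        (q2.primeFactors.card : ℝ)))
      (D ^ κ * (N : ℝ) ^ ε + D * Real.log q1 / P + (q2.primeFactors.card : ℝ))

theorem st_FIN13 (h12 : ST_FIN12) (h13 : ST_MAIN13) : ST_FIN13 := by
  intro ε K hε hK
  obtain ⟨C12, κ, hC12, h12⟩ := h12 ε hε
  obtain ⟨C13, hC13, h13⟩ := h13 ε K hε hK
  refine ⟨C12 + C13, κ, by positivity, ?_⟩
  intro N q1 q2 a P y r l D hN hq1 hq2 hy hl hcop hcopa hr2 hrs hro hrc hrl hNy hNP hD hPD
  have hmain := h12 N q1 q2 a P y r l D hN hq1 hq2 hy hl hcop hcopa hr2 hrs hro hrc hrl hNy hNP hD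
    hPD
  have hq12 : 1 ≤ q1 * q2 := Nat.one_le_iff_ne_zero.mpr (by positivity)
  have hnew := h13 N (q1 * q2) a r l hN hq12 hl hcopa hrs hro hrc hrl
  have hD0 : 0 < D := by linarith
  have hNr : (1 : ℝ) ≤ N := by exact_mod_cast hN
  have hN0 : (0 : ℝ) < N := by linarith
  have hL0 : 0 ≤ Real.log (q1 : ℝ) := Real.log_natCast_nonneg q1
  have hlogN : 0 ≤ Real.log (N : ℝ) := Real.log_natCast_nonneg N
  have hP0 : (0 : ℝ) < P := lt_of_lt_of_le (by positivity) hNP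
  have hCC : 0 ≤ C12 + C13 := by positivity
  have hCa : C12 ≤ C12 + C13 := by linarith
  have hCb : C13 ≤ C12 + C13 := by linarith
  have hmρ : 0 ≤ min (((q1 * q2 : ℕ) : ℝ) / (Nat.totient (q1 * q2) : ℝ)) (1 + Real.log N) :=
    le_min (by positivity) (by linarith)
  rw [mul_min_of_nonneg _ _ hC12.le, mul_min_of_nonneg _ _ hC12.le, mul_min_of_nonneg _ _ hC12.le,
    mul_min_of_nonneg _ _ hC12.le, mul_min_of_nonneg _ _ hC12.le] at hmain
  obtain ⟨h12345, h6⟩ := le_min_iff.1 hmain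
  obtain ⟨h1234, h5⟩ := le_min_iff.1 h12345
  obtain ⟨h123, h4⟩ := le_min_iff.1 h1234
  obtain ⟨h12', h3⟩ := le_min_iff.1 h123
  obtain ⟨h1, h2⟩ := le_min_iff.1 h12'
  rw [mul_min_of_nonneg _ _ hCC, mul_min_of_nonneg _ _ hCC, mul_min_of_nonneg _ _ hCC,
    mul_min_of_nonneg _ _ hCC, mul_min_of_nonneg _ _ hCC]
  refine le_min (le_min (le_min (le_min (le_min ?_ ?_) ?_) ?_) ?_) ?_
  · exact hnew.trans (mul_le_mul_of_nonneg_right hCb (by positivity))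
  · exact h2.trans (mul_le_mul_of_nonneg_right hCa (by positivity))
  · exact h3.trans (mul_le_mul_of_nonneg_right hCa (by positivity))
  · exact h4.trans (mul_le_mul_of_nonneg_right hCa (by positivity))
  · exact h5.trans (mul_le_mul_of_nonneg_right hCa (by positivity))
  · exact h6.trans (mul_le_mul_of_nonneg_right hCa (by positivity))

end Pool.Agent.Helper18.RD6
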