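import Pool.Agent.Helper18.RD6.All12
import Pool.Agent.Helper18.RD6.FIN13
import Pool.Agent.Helper30.RD9.All

/-! Project RD, all forms: assembly. -/

set_option autoImplicit false

namespace Pool.Agent.Helper18.RD6

open Pool.Agent.Helper18.RD Pool.Agent.Helper19.RD

theorem main13 : ST_MAIN13 :=
  st_MAIN13 Pool.Agent.Helper30.RD9.a1p Pool.Agent.Helper85.RD9.st_PGX (st_SPRG st_BILR)

theorem fin13 : ST_FIN13 := st_FIN13 fin12 main13

end Pool.Agent.Helper18.RD6
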