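import Pool.Agent.Helper18.RD6.FIN13
import Pool.Agent.Helper68.RD.SMOOTH

/-! Project RD: all forms in one bound, with the form for many primes of one size. -/

set_option autoImplicit false

namespace Pool.Agent.Helper18.RD6

open Finset Pool.Agent.Helper18.RD

/-- FIN14 -/
def ST_FIN14 : Prop := ∀ ε K : ℝ, 0 < ε → 0 < K → ∃ C κ : ℝ, 0 < C ∧
  ∀ (N q1 q2 a P y r l x u : ℕ) (D : ℝ),
  1 ≤ N → 1 ≤ q1 → 1 ≤ q2 → 1 ≤ y → 1 ≤ l → Nat.Coprime q1 q2 → Nat.Coprime (q1 * q2) a →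
  2 ≤ r → Squarefree r → Odd r → Nat.Coprime r (q1 * q2) →
  (∀ p : ℕ, p.Prime → p ∣ r → l ≤ p) →
  (N : ℝ) ^ ε * Real.sqrt y ≤
    (((Icc 1 y).filter (fun p => p.Prime ∧ ¬ p ∣ q1 * q2)).card : ℝ) →
  (N : ℝ) ^ ε ≤ P → 1 ≤ D →
  (P : ℝ) ≤ D * (1 + (((q1 * q2).primeFactors.filter (fun p => p ≠ 2 ∧ p ≤ P)).card : ℝ)) →
  (((range N).filter (fun n => IsSquare (q1 * q2 * n + a))).card : ℝ) ≤
    C * min (min (min (min (min
      ((N : ℝ) ^ ε * (Real.sqrt r + N / Real.sqrt r + N / (l : ℝ) ^ K))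
      (Real.sqrt N * min ((q1 * q2 : ℕ) / (Nat.totient (q1 * q2) : ℝ)) (1 + Real.log N) +
        (N : ℝ) ^ ε * y))
      (Real.sqrt N * min ((q1 * q2 : ℕ) / (Nat.totient (q1 * q2) : ℝ)) (1 + Real.log N) +
        (N : ℝ) ^ ε * Real.sqrt (Real.log q1) + (q2.primeFactors.card : ℝ)))
      ((N : ℝ) ^ ε * (Real.sqrt N + Real.log q1 ^ (1 / 4 : ℝ)) + (q2.primeFactors.card : ℝ)))
      (D ^ κ * (N : ℝ) ^ ε * (Real.sqrt N + Real.sqrt (Real.log q1 / P)) +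
        (q2.primeFactors.card : ℝ)))
      (D ^ κ * (N : ℝ) ^ ε + D * Real.log q1 / P + (q2.primeFactors.card : ℝ)) ∧
  (u ≤ ((q1 * q2).primeFactors.filter (fun p => x < 2 * p ∧ p ≤ x)).card → N ≤ x ^ 2 →
    (x : ℝ) * (1 + Real.log x) ≤ (N : ℝ) ^ (1 / 4800 : ℝ) * u →
    C * (1 + Real.log N) * Real.log (q1 * q2 : ℕ) ≤ (u : ℝ) ^ 2 →
    (((range N).filter (fun n => IsSquare (q1 * q2 * n + a))).card : ℝ) ≤ C * Real.sqrt N)

theorem st_FIN14 (h13 : ST_FIN13) (hS : Pool.Agent.Helper68.RD.ST_SM) : ST_FIN14 := by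
  intro ε K hε hK
  obtain ⟨C13, κ, hC13, h13⟩ := h13 ε K hε hK
  obtain ⟨CS, hCS, hS⟩ := hS
  refine ⟨C13 + CS, κ, by positivity, ?_⟩
  intro N q1 q2 a P y r l x u D hN hq1 hq2 hy hl hcop hcopa hr2 hrs hro hrc hrl hNy hNP hD hPD
  have hmain := h13 N q1 q2 a P y r l D hN hq1 hq2 hy hl hcop hcopa hr2 hrs hro hrc hrl hNy hNP hD
    hPD
  have hq12 : 1 ≤ q1 * q2 := Nat.one_le_iff_ne_zero.mpr (by positivity)
  have hD0 : 0 < D := by linarith
  have hNr : (1 : ℝ) ≤ N := by exact_mod_cast hN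
  have hN0 : (0 : ℝ) < N := by linarith
  have hL0 : 0 ≤ Real.log (q1 : ℝ) := Real.log_natCast_nonneg q1
  have hlogN : 0 ≤ Real.log (N : ℝ) := Real.log_natCast_nonneg N
  have hP0 : (0 : ℝ) < P := lt_of_lt_of_le (by positivity) hNP
  have hCC : C13 ≤ C13 + CS := by linarith
  have hmρ : 0 ≤ min (((q1 * q2 : ℕ) : ℝ) / (Nat.totient (q1 * q2) : ℝ)) (1 + Real.log N) :=
    le_min (by positivity) (by linarith)
  refine ⟨hmain.trans (mul_le_mul_of_nonneg_right hCC ?_), ?_⟩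
  · refine le_min (le_min (le_min (le_min (le_min ?_ ?_) ?_) ?_) ?_) ?_ <;> positivity
  · intro hu hNx h1 h2
    have hPX : Pool.Agent.Helper68.RD.PX (q1 * q2) x =
        (q1 * q2).primeFactors.filter (fun p => x < 2 * p ∧ p ≤ x) := by
      ext p
      rw [Pool.Agent.Helper68.RD.PX, mem_filter, mem_filter, mem_Icc, Nat.mem_primeFactors]
      constructor
      · rintro ⟨⟨_, a2⟩, a3, a4, a5⟩
        exact ⟨⟨a3, a4, by omega⟩, a5, a2⟩
      · rintro ⟨⟨a1, a2, _⟩, a4, a5⟩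
        exact ⟨⟨a1.one_lt.le, a5⟩, a1, a2, a4⟩
    have hur : (u : ℝ) ≤ ((Pool.Agent.Helper68.RD.PX (q1 * q2) x).card : ℝ) := by
      rw [hPX]; exact_mod_cast hu
    have hlogx : 0 ≤ Real.log (x : ℝ) := Real.log_natCast_nonneg x
    have hlogq : 0 ≤ Real.log ((q1 * q2 : ℕ) : ℝ) := Real.log_natCast_nonneg _
    have h3 := hS N (q1 * q2) a x hN hq12 hcopa hNx
      (h1.trans (mul_le_mul_of_nonneg_left hur (by positivity)))
      (by
        refine le_trans ?_ (h2.trans (pow_le_pow_left₀ (Nat.cast_nonneg _) hur 2))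
        have : CS ≤ C13 + CS := by linarith
        gcongr)
    refine h3.trans (mul_le_mul_of_nonneg_right (by linarith) (Real.sqrt_nonneg _))

end Pool.Agent.Helper18.RD6
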