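import Pool.Agent.Helper18.RD6.All13
import Pool.Agent.Helper18.RD6.FIN14
import Pool.Agent.Helper68.RD.AllSM

/-! Project RD, all forms: assembly. -/

set_option autoImplicit false

namespace Pool.Agent.Helper18.RD6

theorem fin14 : ST_FIN14 := st_FIN14 fin13 Pool.Agent.Helper68.RD.all_SM

end Pool.Agent.Helper18.RD6
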