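import Pool.Agent.Helper18.RD6.FIN15

/-! Project RD: all forms in one bound, the smooth part free in the fourth and fifth bounds. -/

set_option autoImplicit false

namespace Pool.Agent.Helper18.RD6

open Finset Pool.Agent.Helper18.RD

/-- LQ2 (assumed form) -/
def ST_LQ2 : Prop := ∀ ε : ℝ, 0 < ε → ∃ C : ℝ, 0 < C ∧ ∀ N q0 q1 q2 a : ℕ, 1 ≤ N → 1 ≤ q0 →
  1 ≤ q1 → 1 ≤ q2 → Nat.Coprime q0 q1 → Nat.Coprime (q0 * q1) q2 →
  Nat.Coprime (q0 * q1 * q2) a → (∀ p : ℕ, p.Prime → p ∣ q0 → p ≤ N) →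
  C * ((N : ℝ) ^ (1 / 2 + ε) + (q2.primeFactors.card : ℝ)) <
    (((range N).filter (fun n => IsSquare (q0 * q1 * q2 * n + a))).card : ℝ) →
  Real.log ((q0 * q1 * q2 : ℕ) : ℝ) ≤ C * (N + Real.log q1)

/-- FIN16 -/
def ST_FIN16 : Prop := ∀ ε K : ℝ, 0 < ε → 0 < K → ∃ C κ : ℝ, 0 < C ∧
  ∀ (N q q0 q1 q2 a P y r l x u : ℕ) (D : ℝ),
  1 ≤ N → 1 ≤ q → 1 ≤ y → 1 ≤ l → q = q0 * q1 * q2 → Nat.Coprime q0 q1 →
  Nat.Coprime (q0 * q1) q2 → Nat.Coprime q a → (∀ p : ℕ, p.Prime → p ∣ q0 → p ≤ N) →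
  2 ≤ r → Squarefree r → Odd r → Nat.Coprime r q →
  (∀ p : ℕ, p.Prime → p ∣ r → l ≤ p) →
  (N : ℝ) ^ ε * Real.sqrt y ≤ (((Icc 1 y).filter (fun p => p.Prime ∧ ¬ p ∣ q)).card : ℝ) →
  (N : ℝ) ^ ε ≤ P → 1 ≤ D →
  (P : ℝ) ≤ D * (1 + ((q.primeFactors.filter (fun p => p ≠ 2 ∧ p ≤ P)).card : ℝ)) →
  (((range N).filter (fun n => IsSquare (q * n + a))).card : ℝ) ≤
    C * min (min (min (min (min
      ((N : ℝ) ^ ε * (Real.sqrt r + N / Real.sqrt r + N / (l : ℝ) ^ K))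
      (Real.sqrt N * min (q / (Nat.totient q : ℝ)) (1 + Real.log N) + (N : ℝ) ^ ε * y))
      (Real.sqrt N * min (q / (Nat.totient q : ℝ)) (1 + Real.log N) +
        (N : ℝ) ^ ε * Real.sqrt (Real.log (q0 * q1 : ℕ)) + (q2.primeFactors.card : ℝ)))
      ((N : ℝ) ^ ε * (Real.sqrt N + Real.log q1 ^ (1 / 4 : ℝ)) + (q2.primeFactors.card : ℝ)))
      (D ^ κ * (N : ℝ) ^ ε * (Real.sqrt N + Real.sqrt (Real.log q1 / P)) +
        (q2.primeFactors.card : ℝ)))
      (D ^ κ * (N : ℝ) ^ ε + D * Real.log (q0 * q1 : ℕ) / P + (q2.primeFactors.card : ℝ)) ∧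
  (u ≤ (q.primeFactors.filter (fun p => x < 2 * p ∧ p ≤ x)).card → N ≤ x ^ 2 →
    (x : ℝ) * (1 + Real.log x) ≤ (N : ℝ) ^ (1 / 4800 : ℝ) * u →
    (C * (1 + Real.log N) * Real.log q ≤ (u : ℝ) ^ 2 →
      (((range N).filter (fun n => IsSquare (q * n + a))).card : ℝ) ≤ C * Real.sqrt N) ∧
    (C * (1 + Real.log N) * (N + Real.log q1) ≤ (u : ℝ) ^ 2 →
      (((range N).filter (fun n => IsSquare (q * n + a))).card : ℝ) ≤
        C * ((N : ℝ) ^ (1 / 2 + ε) + (q2.primeFactors.card : ℝ))))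

theorem st_FIN16 (h15 : ST_FIN15) (hL : ST_LQ2) : ST_FIN16 := by
  intro ε K hε hK
  obtain ⟨C1, κ1, hC1, h15⟩ := h15 ε K hε hK
  obtain ⟨C2, hC2, hL⟩ := hL ε hε
  obtain ⟨C0, hC0⟩ : ∃ C0 : ℝ, C0 = max C1 C2 + 1 := ⟨_, rfl⟩
  have hC0a : C1 ≤ C0 := by rw [hC0]; have := le_max_left C1 C2; linarith
  have hC0b : C2 ≤ C0 := by rw [hC0]; have := le_max_right C1 C2; linarith
  have hC0c : 1 ≤ C0 := by rw [hC0]; have := le_max_left C1 C2; linarith
  obtain ⟨κ, hκ⟩ : ∃ κ : ℝ, κ = max κ1 0 := ⟨_, rfl⟩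
  have hκ1 : κ1 ≤ κ := by rw [hκ]; exact le_max_left _ _
  have hκ0 : 0 ≤ κ := by rw [hκ]; exact le_max_right _ _
  obtain ⟨C, hC⟩ : ∃ C : ℝ, C = 3 * C0 ^ 2 := ⟨_, rfl⟩
  have hC0C : C0 ≤ C := by rw [hC]; nlinarith
  have hC1C : C1 ≤ C := by linarith
  have hC2C : C2 ≤ C := by linarith
  have hC12C : C1 * C2 ≤ C := by
    rw [hC]
    calc C1 * C2 ≤ C0 * C0 := mul_le_mul hC0a hC0b hC2.le (by linarith)
      _ ≤ 3 * C0 ^ 2 := by nlinarith
  have hCpos : 0 < C := by linarith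
  refine ⟨C, κ, hCpos, ?_⟩
  intro N q q0 q1 q2 a P y r l x u D hN hq hy hl hqe hc01 hc2 hcopa hsm hr2 hrs hro hrc hrl hNy
    hNP hD hPD
  obtain ⟨hmain, hcl⟩ := h15 N q q0 q1 q2 a P y r l x u D hN hq hy hl hqe hc01 hc2 hcopa hsm hr2
    hrs hro hrc hrl hNy hNP hD hPD
  have hq2 : 1 ≤ q2 := Nat.pos_of_ne_zero (by rintro rfl; simp [hqe] at hq)
  have hq01 : 1 ≤ q0 * q1 := Nat.pos_of_ne_zero (by rintro h; rw [hqe, h] at hq; simp at hq)
  have hq0 : 1 ≤ q0 := Nat.pos_of_ne_zero (by rintro rfl; simp at hq01)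
  have hq1 : 1 ≤ q1 := Nat.pos_of_ne_zero (by rintro rfl; simp at hq01)
  have hlq := hL N q0 q1 q2 a hN hq0 hq1 hq2 hc01 hc2 (by rw [← hqe]; exact hcopa) hsm
  rw [← hqe] at hlq
  have hD0 : 0 < D := by linarith
  have hNr : (1 : ℝ) ≤ N := by exact_mod_cast hN
  have hN0 : (0 : ℝ) < N := by linarith
  have hL0 : 0 ≤ Real.log ((q0 * q1 : ℕ) : ℝ) := Real.log_natCast_nonneg _
  have hL1 : 0 ≤ Real.log (q1 : ℝ) := Real.log_natCast_nonneg _
  have hLq : 0 ≤ Real.log (q : ℝ) := Real.log_natCast_nonneg _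
  have hL01q : Real.log ((q0 * q1 : ℕ) : ℝ) ≤ Real.log (q : ℝ) := by
    apply Real.log_le_log
    · exact_mod_cast hq01
    · rw [hqe]
      exact_mod_cast Nat.le_mul_of_pos_right _ hq2
  have hlogN : 0 ≤ Real.log (N : ℝ) := Real.log_natCast_nonneg N
  have hNε : 1 ≤ (N : ℝ) ^ ε := Real.one_le_rpow hNr hε.le
  have hPr : (1 : ℝ) ≤ P := hNε.trans hNP
  have hP0 : (0 : ℝ) < P := by linarith
  have hDκ1 : 1 ≤ D ^ κ := Real.one_le_rpow hD hκ0
  have hDκ : D ^ κ1 ≤ D ^ κ := Real.rpow_le_rpow_of_exponent_le hD hκ1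
  have hmρ : 0 ≤ min ((q : ℝ) / (Nat.totient q : ℝ)) (1 + Real.log N) :=
    le_min (by positivity) (by linarith)
  obtain ⟨X, hX⟩ : ∃ X : ℝ,
    X = (((range N).filter (fun n => IsSquare (q * n + a))).card : ℝ) := ⟨_, rfl⟩
  obtain ⟨w, hw⟩ : ∃ w : ℝ, w = (q2.primeFactors.card : ℝ) := ⟨_, rfl⟩
  have hw0 : 0 ≤ w := by rw [hw]; positivity
  rw [← hX] at hmain hcl hlq ⊢
  rw [← hw] at hmain hlq ⊢
  have hNh : (N : ℝ) ^ (1 / 2 + ε) = (N : ℝ) ^ ε * Real.sqrt N := by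
    rw [Real.sqrt_eq_rpow, ← Real.rpow_add hN0]; congr 1; ring
  rw [mul_min_of_nonneg _ _ hC1.le, mul_min_of_nonneg _ _ hC1.le, mul_min_of_nonneg _ _ hC1.le,
    mul_min_of_nonneg _ _ hC1.le, mul_min_of_nonneg _ _ hC1.le] at hmain
  obtain ⟨h12345, h6⟩ := le_min_iff.1 hmain
  obtain ⟨h1234, h5⟩ := le_min_iff.1 h12345
  obtain ⟨h123, h4⟩ := le_min_iff.1 h1234
  obtain ⟨h12', h3⟩ := le_min_iff.1 h123
  obtain ⟨h1, h2⟩ := le_min_iff.1 h12'
  constructor
  · rw [mul_min_of_nonneg _ _ hCpos.le, mul_min_of_nonneg _ _ hCpos.le,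
      mul_min_of_nonneg _ _ hCpos.le, mul_min_of_nonneg _ _ hCpos.le,
      mul_min_of_nonneg _ _ hCpos.le]
    refine le_min (le_min (le_min (le_min (le_min ?_ ?_) ?_) ?_) ?_) ?_
    · exact h1.trans (mul_le_mul_of_nonneg_right hC1C (by positivity))
    · exact h2.trans (mul_le_mul_of_nonneg_right hC1C (by positivity))
    · exact h3.trans (mul_le_mul_of_nonneg_right hC1C (by positivity))
    · exact h4.trans (mul_le_mul_of_nonneg_right hC1C (by positivity))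
    · obtain ⟨V, hV⟩ : ∃ V : ℝ, V = Real.sqrt N + Real.sqrt (Real.log q1 / P) := ⟨_, rfl⟩
      have hV0 : Real.sqrt N ≤ V := by
        rw [hV]; have := Real.sqrt_nonneg (Real.log q1 / P); linarith
      have hsN : 0 ≤ Real.sqrt N := Real.sqrt_nonneg _
      rw [← hV]
      rcases le_or_gt X (C2 * ((N : ℝ) ^ (1 / 2 + ε) + w)) with h | h
      · refine h.trans ?_
        refine mul_le_mul hC2C ?_ (by positivity) hCpos.le
        rw [hNh]
        have e1 : (N : ℝ) ^ ε * Real.sqrt N ≤ D ^ κ * (N : ℝ) ^ ε * V := by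
          calc (N : ℝ) ^ ε * Real.sqrt N = 1 * (N : ℝ) ^ ε * Real.sqrt N := by ring
            _ ≤ D ^ κ * (N : ℝ) ^ ε * V := by gcongr
        linarith
      · have hlq' := hlq h
        have e1 : Real.log ((q0 * q1 : ℕ) : ℝ) / P ≤ C0 ^ 2 * (N + Real.log q1 / P) := by
          have e2 : Real.log ((q0 * q1 : ℕ) : ℝ) ≤ C0 ^ 2 * (N + Real.log q1) := by
            refine (hL01q.trans hlq').trans ?_
            apply mul_le_mul_of_nonneg_right _ (by positivity)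
            nlinarith
          calc Real.log ((q0 * q1 : ℕ) : ℝ) / P ≤ C0 ^ 2 * (N + Real.log q1) / P := by gcongr
            _ = C0 ^ 2 * (N / P + Real.log q1 / P) := by ring
            _ ≤ C0 ^ 2 * (N + Real.log q1 / P) := by
                have : (N : ℝ) / P ≤ N := div_le_self hN0.le hPr
                gcongr
        have e2 : Real.sqrt (Real.log ((q0 * q1 : ℕ) : ℝ) / P) ≤ C0 * V := by
          calc Real.sqrt (Real.log ((q0 * q1 : ℕ) : ℝ) / P)
              ≤ Real.sqrt (C0 ^ 2 * (N + Real.log q1 / P)) := Real.sqrt_le_sqrt e1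
            _ = C0 * Real.sqrt (N + Real.log q1 / P) := by
                rw [Real.sqrt_mul (by positivity), Real.sqrt_sq (by linarith)]
            _ ≤ C0 * V := by
                rw [hV]
                apply mul_le_mul_of_nonneg_left _ (by linarith)
                have f0 : 0 ≤ Real.log (q1 : ℝ) / P := div_nonneg hL1 hP0.le
                have f1 := Real.sq_sqrt hN0.le
                have f2 := Real.sq_sqrt f0
                have f3 := mul_nonneg hsN (Real.sqrt_nonneg (Real.log (q1 : ℝ) / P))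
                refine Real.sqrt_le_iff.2 ⟨add_nonneg hsN (Real.sqrt_nonneg _), ?_⟩
                rw [add_sq, f1, f2]
                linarith
        have e3 : Real.sqrt N + Real.sqrt (Real.log ((q0 * q1 : ℕ) : ℝ) / P) ≤ 2 * C0 * V := by
          nlinarith
        have hsL : 0 ≤ Real.sqrt (Real.log ((q0 * q1 : ℕ) : ℝ) / P) := Real.sqrt_nonneg _
        have hVn : 0 ≤ V := hsN.trans hV0
        have e5 : D ^ κ1 * (N : ℝ) ^ ε *
            (Real.sqrt N + Real.sqrt (Real.log ((q0 * q1 : ℕ) : ℝ) / P)) ≤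
            D ^ κ * (N : ℝ) ^ ε * (2 * C0 * V) :=
          mul_le_mul (mul_le_mul_of_nonneg_right hDκ (by positivity)) e3
            (add_nonneg hsN hsL) (by positivity)
        have e6 : 0 ≤ D ^ κ * (N : ℝ) ^ ε * V := by positivity
        have e7 : 0 ≤ D ^ κ * (N : ℝ) ^ ε * (2 * C0 * V) := by
          have : 0 ≤ 2 * C0 * V := mul_nonneg (by linarith) hVn
          positivity
        calc X ≤ C1 * (D ^ κ1 * (N : ℝ) ^ ε *
              (Real.sqrt N + Real.sqrt (Real.log ((q0 * q1 : ℕ) : ℝ) / P)) + w) := h5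
          _ ≤ C1 * (D ^ κ * (N : ℝ) ^ ε * (2 * C0 * V) + w) :=
              mul_le_mul_of_nonneg_left (by linarith) hC1.le
          _ ≤ C0 * (D ^ κ * (N : ℝ) ^ ε * (2 * C0 * V) + w) :=
              mul_le_mul_of_nonneg_right hC0a (add_nonneg e7 hw0)
          _ = 2 * C0 ^ 2 * (D ^ κ * (N : ℝ) ^ ε * V) + C0 * w := by ring
          _ ≤ C * (D ^ κ * (N : ℝ) ^ ε * V) + C * w := by
              have e4 : 2 * C0 ^ 2 ≤ C := by rw [hC]; nlinarith
              exact add_le_add (mul_le_mul_of_nonneg_right e4 e6)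
                (mul_le_mul_of_nonneg_right hC0C hw0)
          _ = C * (D ^ κ * (N : ℝ) ^ ε * V + w) := by ring
    · refine h6.trans ?_
      have e1 : D ^ κ1 * (N : ℝ) ^ ε + D * Real.log ((q0 * q1 : ℕ) : ℝ) / P + w ≤
          D ^ κ * (N : ℝ) ^ ε + D * Real.log ((q0 * q1 : ℕ) : ℝ) / P + w := by
        have : D ^ κ1 * (N : ℝ) ^ ε ≤ D ^ κ * (N : ℝ) ^ ε :=
          mul_le_mul_of_nonneg_right hDκ (by positivity)
        linarith
      exact (mul_le_mul_of_nonneg_left e1 hC1.le).trans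
        (mul_le_mul_of_nonneg_right hC1C (by positivity))
  · intro hu hNx g1
    constructor
    · intro g2
      refine (hcl hu hNx g1 (le_trans ?_ g2)).trans
        (mul_le_mul_of_nonneg_right hC1C (Real.sqrt_nonneg _))
      gcongr
    · intro g2
      rcases le_or_gt X (C2 * ((N : ℝ) ^ (1 / 2 + ε) + w)) with h | h
      · exact h.trans (mul_le_mul_of_nonneg_right hC2C (by positivity))
      · have hlq' := hlq h
        have g3 : C1 * (1 + Real.log N) * Real.log q ≤ (u : ℝ) ^ 2 := by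
          calc C1 * (1 + Real.log N) * Real.log q
              ≤ C1 * (1 + Real.log N) * (C2 * (N + Real.log q1)) := by gcongr
            _ = (C1 * C2) * (1 + Real.log N) * (N + Real.log q1) := by ring
            _ ≤ C * (1 + Real.log N) * (N + Real.log q1) := by gcongr
            _ ≤ (u : ℝ) ^ 2 := g2
        have g4 := hcl hu hNx g1 g3
        refine g4.trans ?_
        refine mul_le_mul hC1C ?_ (Real.sqrt_nonneg _) hCpos.le
        rw [hNh]
        have : 1 * Real.sqrt N ≤ (N : ℝ) ^ ε * Real.sqrt N := by gcongr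
        linarith

end Pool.Agent.Helper18.RD6
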