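import Pool.Agent.Helper18.RD6.All14
import Pool.Agent.Helper18.RD6.FIN16
import Pool.Agent.Helper83.RD8.T7

/-! Project RD, all forms: assembly. -/

set_option autoImplicit false

namespace Pool.Agent.Helper18.RD6

open Pool.Agent.Helper18.RD Pool.Agent.Helper19.RD

theorem lq2 : Pool.Agent.Helper83.RD8.ST_LQ2 :=
  Pool.Agent.Helper83.RD8.st_LQ2 rd8_arr a1 st_PG (Pool.Agent.Helper41.RD8.st_SP2 st_BL1) st_UNS
    Pool.Agent.Helper97.RD.st_TR (Pool.Agent.Helper26.RD.st_GR st_UV)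

theorem t7 : Pool.Agent.Helper83.RD8.ST_T7 := Pool.Agent.Helper83.RD8.st_T7 lq2 main8

theorem fin15 : ST_FIN15 := st_FIN15 fin14 t7

theorem fin16 : ST_FIN16 := st_FIN16 fin15 lq2

end Pool.Agent.Helper18.RD6
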