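import Pool.Agent.Helper18.RD.Stmts6

/-! Row GT6 of project RD. -/

set_option autoImplicit false

namespace Pool.Agent.Helper18.RD6

open Finset Pool.Agent.Helper18.RD

/-- the sign vector of a Boolean vector -/
def sgb {i : ℕ} (v : Fin i → Bool) : Fin i → ℤ := fun k => if v k then 1 else -1

theorem sgb_pm {i : ℕ} (v : Fin i → Bool) (k : Fin i) : sgb v k = 1 ∨ sgb v k = -1 := by
  unfold sgb
  split_ifs
  · left; rfl
  · right; rfl

theorem exists_sgb {i : ℕ} (σ : Fin i → ℤ) (h : ∀ k, σ k = 1 ∨ σ k = -1) :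
    ∃ v : Fin i → Bool, sgb v = σ := by
  refine ⟨fun k => decide (σ k = 1), ?_⟩
  funext k
  unfold sgb
  rcases h k with h1 | h1
  · simp [h1]
  · simp [h1]

/-- the set cut out by a sign vector -/
def cut (S : Finset ℕ) (e : ℕ → ℕ → ℤ) {i : ℕ} (t : Fin i → ℕ) (σ : Fin i → ℤ) : Finset ℕ :=
  S.filter (fun n => ∀ k, e n (t k) = σ k)

theorem cut_snoc (S : Finset ℕ) (e : ℕ → ℕ → ℤ) {i : ℕ} (t : Fin i → ℕ) (p : ℕ)
    (σ : Fin (i + 1) → ℤ) :
    cut S e (Fin.snoc t p : Fin (i + 1) → ℕ) σ =
      (cut S e t (fun k => σ k.castSucc)).filter (fun n => e n p = σ (Fin.last i)) := by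
  ext n
  simp only [cut, Finset.mem_filter, Fin.forall_fin_succ', Fin.snoc_castSucc, Fin.snoc_last]
  tauto

theorem gt_aux (S Q : Finset ℕ) (e : ℕ → ℕ → ℤ) (j b : ℕ)
    (hQ : ∀ S' : Finset ℕ, S' ⊆ S → S.card ≤ 16 ^ j * S'.card →
      ∃ B : Finset ℕ, B.card ≤ b ∧ ∀ p ∈ Q, p ∉ B → Bal6 e S' p)
    (hcard : 2 * (2 ^ j * b + j) ≤ Q.card) :
    ∀ i : ℕ, i ≤ j → ∃ T : Finset (Fin i → ℕ),
      (∀ t ∈ T, Function.Injective t ∧ (∀ k, t k ∈ Q) ∧ Good6 S e i t) ∧
      Q.card ^ i ≤ 2 ^ i * T.card := by
  classical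
  intro i
  induction i with
  | zero =>
    intro _
    refine ⟨{fun k => Fin.elim0 k}, ?_, ?_⟩
    · intro t _
      refine ⟨fun a => Fin.elim0 a, fun k => Fin.elim0 k, ?_⟩
      intro σ _
      have : S.filter (fun n => ∀ k : Fin 0, e n (t k) = σ k) = S := by
        apply Finset.filter_true_of_mem
        intro n _ k
        exact Fin.elim0 k
      rw [this]
      simp
    · simp
  | succ i ih =>
    intro hi
    obtain ⟨T, hT, hTc⟩ := ih (by omega)
    -- bad sets
    have hbad : ∀ t : Fin i → ℕ, Good6 S e i t → ∃ A : Finset ℕ, A ⊆ Q ∧ Q.card ≤ 2 * A.card ∧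
        (∀ p ∈ A, ∀ k, t k ≠ p) ∧
        ∀ p ∈ A, ∀ σ : Fin i → ℤ, (∀ k, σ k = 1 ∨ σ k = -1) → Bal6 e (cut S e t σ) p := by
      intro t ht
      have h1 : ∀ v : Fin i → Bool, ∃ B : Finset ℕ, B.card ≤ b ∧
          ∀ p ∈ Q, p ∉ B → Bal6 e (cut S e t (sgb v)) p := by
        intro v
        apply hQ
        · exact Finset.filter_subset _ _
        · have h2 := ht (sgb v) (sgb_pm v)
          have h3 : 16 ^ i ≤ 16 ^ j := Nat.pow_le_pow_right (by norm_num) (by omega)
          exact h2.trans (Nat.mul_le_mul_right _ h3)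
      choose B hB1 hB2 using h1
      let BB : Finset ℕ := (Finset.univ.image t) ∪ Finset.univ.biUnion B
      have hBBc : BB.card ≤ i + 2 ^ i * b := by
        refine (Finset.card_union_le _ _).trans ?_
        refine Nat.add_le_add ?_ ?_
        · refine Finset.card_image_le.trans ?_
          simp
        · refine Finset.card_biUnion_le.trans ?_
          refine (Finset.sum_le_sum (fun v _ => hB1 v)).trans ?_
          simp
      refine ⟨Q \ BB, Finset.sdiff_subset, ?_, ?_, ?_⟩
      · have h4 : Q.card - BB.card ≤ (Q \ BB).card := Finset.le_card_sdiff _ _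
        have h5 : 2 ^ i * b ≤ 2 ^ j * b :=
          Nat.mul_le_mul_right _ (Nat.pow_le_pow_right (by norm_num) (by omega))
        omega
      · intro p hp k hk
        apply (Finset.mem_sdiff.1 hp).2
        apply Finset.mem_union_left
        rw [← hk]
        exact Finset.mem_image_of_mem _ (Finset.mem_univ k)
      · intro p hp σ hσ
        obtain ⟨v, rfl⟩ := exists_sgb σ hσ
        apply hB2 v p (Finset.mem_sdiff.1 hp).1
        intro hpB
        apply (Finset.mem_sdiff.1 hp).2
        apply Finset.mem_union_right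
        exact Finset.mem_biUnion.2 ⟨v, Finset.mem_univ _, hpB⟩
    -- choose A for every tuple
    have hbad' : ∀ t : Fin i → ℕ, ∃ A : Finset ℕ, Good6 S e i t → (A ⊆ Q ∧ Q.card ≤ 2 * A.card ∧
        (∀ p ∈ A, ∀ k, t k ≠ p) ∧
        ∀ p ∈ A, ∀ σ : Fin i → ℤ, (∀ k, σ k = 1 ∨ σ k = -1) → Bal6 e (cut S e t σ) p) := by
      intro t
      by_cases h : Good6 S e i t
      · obtain ⟨A, hA⟩ := hbad t h
        exact ⟨A, fun _ => hA⟩
      · exact ⟨∅, fun h' => absurd h' h⟩
    choose A hA using hbad'
    let f : (Σ _ : (Fin i → ℕ), ℕ) → (Fin (i + 1) → ℕ) := fun x => Fin.snoc x.1 x.2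
    have hf : Function.Injective f := by
      rintro ⟨t, p⟩ ⟨t', p'⟩ h
      have h1 : p = p' := by
        have := congrFun h (Fin.last i)
        simpa [f] using this
      have h2 : t = t' := by
        funext k
        have := congrFun h k.castSucc
        simpa [f] using this
      subst h1 h2
      rfl
    refine ⟨(T.sigma A).image f, ?_, ?_⟩
    · intro t' ht'
      obtain ⟨⟨t, p⟩, hx, rfl⟩ := Finset.mem_image.1 ht'
      obtain ⟨htT, hpA⟩ := Finset.mem_sigma.1 hx
      simp only at htT hpA
      obtain ⟨hinj, htQ, hgood⟩ := hT t htT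
      obtain ⟨hAQ, _, hne, hbal⟩ := hA t hgood
      refine ⟨?_, ?_, ?_⟩
      · show Function.Injective (Fin.snoc t p : Fin (i + 1) → ℕ)
        intro a c hac
        induction a using Fin.lastCases with
        | last =>
          induction c using Fin.lastCases with
          | last => rfl
          | cast c =>
            simp only [Fin.snoc_last, Fin.snoc_castSucc] at hac
            exact absurd hac.symm (hne p hpA c)
        | cast a =>
          induction c using Fin.lastCases with
          | last =>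
            simp only [Fin.snoc_last, Fin.snoc_castSucc] at hac
            exact absurd hac (hne p hpA a)
          | cast c =>
            simp only [Fin.snoc_castSucc] at hac
            rw [hinj hac]
      · intro k
        show (Fin.snoc t p : Fin (i + 1) → ℕ) k ∈ Q
        induction k using Fin.lastCases with
        | last => rw [Fin.snoc_last]; exact hAQ hpA
        | cast k => rw [Fin.snoc_castSucc]; exact htQ k
      · intro σ hσ
        have h1 := cut_snoc S e t p σ
        have h2 := hbal p hpA (fun k => σ k.castSucc) (fun k => hσ _)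
        have h3 := hgood (fun k => σ k.castSucc) (fun k => hσ _)
        show S.card ≤ 16 ^ (i + 1) * (cut S e (Fin.snoc t p : Fin (i + 1) → ℕ) σ).card
        rw [h1]
        have h4 : (cut S e t (fun k => σ k.castSucc)).card ≤
            16 * ((cut S e t (fun k => σ k.castSucc)).filter
              (fun n => e n p = σ (Fin.last i))).card := by
          rcases hσ (Fin.last i) with h | h
          · rw [h]; exact h2.1
          · rw [h]; exact h2.2
        calc S.card ≤ 16 ^ i * (cut S e t (fun k => σ k.castSucc)).card := h3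
          _ ≤ 16 ^ i * (16 * ((cut S e t (fun k => σ k.castSucc)).filter
              (fun n => e n p = σ (Fin.last i))).card) := Nat.mul_le_mul_left _ h4
          _ = _ := by ring
    · rw [Finset.card_image_of_injective _ hf, Finset.card_sigma]
      have h1 : T.card * Q.card ≤ 2 * ∑ t ∈ T, (A t).card := by
        rw [Finset.mul_sum, ← smul_eq_mul, ← Finset.sum_const]
        exact Finset.sum_le_sum fun t ht => (hA t (hT t ht).2.2).2.1
      calc Q.card ^ (i + 1) = Q.card ^ i * Q.card := by ring
        _ ≤ 2 ^ i * T.card * Q.card := Nat.mul_le_mul_right _ hTc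
        _ = 2 ^ i * (T.card * Q.card) := by ring
        _ ≤ 2 ^ i * (2 * ∑ t ∈ T, (A t).card) := Nat.mul_le_mul_left _ h1
        _ = 2 ^ (i + 1) * ∑ t ∈ T, (A t).card := by ring

theorem st_GT6 : ST_GT6 := by
  classical
  intro S Q e j b _ _ hQ hcard
  exact gt_aux S Q e j b (fun S' h1 h2 => ⟨Q.filter (fun p => ¬ Bal6 e S' p), by
      convert hQ S' h1 h2, fun p hp hpB => by
      by_contra h
      exact hpB (Finset.mem_filter.2 ⟨hp, h⟩)⟩) hcard j le_rfl

end Pool.Agent.Helper18.RD6
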