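import Pool.Agent.Helper18.RD.Stmts7

/-! Project RD: moduli with `q / φ(q)` bounded. -/

set_option autoImplicit false

namespace Pool.Agent.Helper18.RD6

open Finset Pool.Agent.Helper18.RD

theorem st_MAIN7 (h6 : ST_MAIN6P) (hz : ST_MTZ) : ST_MAIN7 := by
  intro B
  obtain ⟨B1, hB1⟩ : ∃ B1 : ℝ, B1 = max B 1 := ⟨_, rfl⟩
  have hB11 : 1 ≤ B1 := by rw [hB1]; exact le_max_right _ _
  obtain ⟨ε, N0, hε, hε4, hz⟩ := hz B1 (by linarith)
  obtain ⟨C, hC, h6⟩ := h6 ε hε
  refine ⟨C * (B1 + 1) + N0, ?_⟩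
  intro N q a hq hqa hqB
  have hN0' : (0 : ℝ) ≤ N0 := Nat.cast_nonneg _
  have hcard : (((range N).filter (fun n => IsSquare (q * n + a))).card : ℝ) ≤ N := by
    have h1 : ((range N).filter (fun n => IsSquare (q * n + a))).card ≤ (range N).card :=
      card_filter_le _ _
    rw [card_range] at h1
    exact_mod_cast h1
  have hs0 : 0 ≤ Real.sqrt N := Real.sqrt_nonneg _
  rcases Nat.eq_zero_or_pos N with h0 | hNpos
  · subst h0
    simp
  have hNr : (1 : ℝ) ≤ N := by exact_mod_cast hNpos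
  have hss : Real.sqrt N * Real.sqrt N = N := Real.mul_self_sqrt (by linarith)
  rcases lt_or_ge N N0 with hN | hN
  · have h2 : (N : ℝ) ≤ N0 := by exact_mod_cast hN.le
    have h3 : Real.sqrt N ≤ N0 := by
      have h4 : Real.sqrt N ≤ N := by
        have : 1 ≤ Real.sqrt N := Real.one_le_sqrt.2 hNr
        nlinarith
      linarith
    have h5 : 0 ≤ C * (B1 + 1) * Real.sqrt N := by positivity
    nlinarith
  · have hqB1 : (q : ℝ) ≤ B1 * (Nat.totient q : ℝ) := by
      refine hqB.trans ?_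
      rw [hB1]
      exact mul_le_mul_of_nonneg_right (le_max_left _ _) (Nat.cast_nonneg _)
    obtain ⟨y, hy1, hy4, hyN⟩ := hz N q hN hq hqB1
    refine (h6 N q a y hNpos hq hy1 hqa hyN).trans ?_
    have hφ : (0 : ℝ) < (Nat.totient q : ℝ) := by
      exact_mod_cast Nat.totient_pos.2 (by omega)
    have h7 : min ((q : ℝ) / (Nat.totient q : ℝ)) (1 + Real.log N) ≤ B1 := by
      refine (min_le_left _ _).trans ?_
      rw [div_le_iff₀ hφ]
      exact hqB1
    have h8 : (N : ℝ) ^ ε * y ≤ Real.sqrt N := by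
      have h9 : (N : ℝ) ^ ε ≤ (N : ℝ) ^ (1 / 4 : ℝ) := Real.rpow_le_rpow_of_exponent_le hNr hε4
      have h10 : (0 : ℝ) ≤ (N : ℝ) ^ (1 / 4 : ℝ) := by positivity
      calc (N : ℝ) ^ ε * y ≤ (N : ℝ) ^ (1 / 4 : ℝ) * (N : ℝ) ^ (1 / 4 : ℝ) :=
            mul_le_mul h9 hy4 (Nat.cast_nonneg _) h10
        _ = Real.sqrt N := by
            rw [← Real.rpow_add (by linarith), Real.sqrt_eq_rpow]
            norm_num
    have h11 : Real.sqrt N * min ((q : ℝ) / (Nat.totient q : ℝ)) (1 + Real.log N) +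
        (N : ℝ) ^ ε * y ≤ Real.sqrt N * B1 + Real.sqrt N := by
      have := mul_le_mul_of_nonneg_left h7 hs0
      linarith
    calc C * (Real.sqrt N * min ((q : ℝ) / (Nat.totient q : ℝ)) (1 + Real.log N) +
        (N : ℝ) ^ ε * y) ≤ C * (Real.sqrt N * B1 + Real.sqrt N) :=
          mul_le_mul_of_nonneg_left h11 hC.le
      _ = C * (B1 + 1) * Real.sqrt N := by ring
      _ ≤ (C * (B1 + 1) + N0) * Real.sqrt N := by
          apply mul_le_mul_of_nonneg_right _ hs0
          linarith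

end Pool.Agent.Helper18.RD6
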