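import Pool.Agent.Helper18.RD.All5
import Pool.Agent.Helper18.RD6.GT6
import Pool.Agent.Helper18.RD6.MAIN7
import Pool.Agent.Helper30.RD6.MLW6
import Pool.Agent.Helper30.RD6.DPN
import Pool.Agent.Helper56.RD6.CHN
import Pool.Agent.Helper56.RD6.MAIN6P
import Pool.Agent.Helper73.RD6.ARN
import Pool.Agent.Helper9.RD6.BIL
import Pool.Agent.Helper54.RD6.SMO
import Pool.Agent.Helper27.RD6.MO1
import Pool.Agent.Helper10.RD6.FI6
import Pool.Agent.Helper10.RD6.ENP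
import Pool.Agent.Helper28.RD6.SU6
import Pool.Agent.Helper12.RD6.ENE
import Pool.Agent.Helper12.RD6.MTZ
import Pool.Agent.Helper45.RD6.BDJ
import Pool.Agent.Helper67.RD6.BADN

/-! Project RD, forms 6 and 7: assembly. -/

set_option autoImplicit false

namespace Pool.Agent.Helper18.RD6

open Pool.Agent.Helper18.RD

theorem arn : ST_ARN :=
  Pool.Agent.Helper73.RD6.st_ARN Pool.Agent.Helper58.RD.st_HALF st_UV
    (Pool.Agent.Helper26.RD.st_GR st_UV) (Pool.Agent.Helper61.RD.st_CHI st_SGN st_UV)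
    (Pool.Agent.Helper56.RD6.st_CHN st_UV)

theorem ene : ST_ENE :=
  Pool.Agent.Helper12.RD6.st_ENE Pool.Agent.Helper10.RD6.st_FI6
    (st_SU6 st_PER)

theorem mlw6 : ST_MLW6 :=
  Pool.Agent.Helper30.RD6.st_MLW6 (st_LOW st_CS) (st_SUM st_PER) Pool.Agent.Helper95.RD.st_FIB

theorem end4 : ST_END4 :=
  Pool.Agent.Helper4.RD.st_END4 Pool.Agent.Helper64.RD.st_ENA
    (Pool.Agent.Helper12.RD.st_ENT
      (Pool.Agent.Helper52.RD.st_PEL Pool.Agent.Helper84.RD.st_SQR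
        Pool.Agent.Helper58.RD.st_PGR))

theorem bdj : ST_BDJ :=
  st_BDJ Pool.Agent.Helper27.RD6.st_MO1 ene Pool.Agent.Helper10.RD6.st_ENP
    (Pool.Agent.Helper54.RD6.st_SMO st_BIL)

theorem dpn : ST_DPN :=
  Pool.Agent.Helper30.RD6.st_DPN arn (st_BADN bdj) st_GT6 mlw6 end4

theorem main6p : ST_MAIN6P :=
  Pool.Agent.Helper56.RD6.st_MAIN6P (st_PL2 sv)
    (Pool.Agent.Helper84.RD.st_GS Pool.Agent.Helper37.DG.st_LSI)
    (Pool.Agent.Helper52.RD.st_LLC Pool.Agent.Helper4.RD.st_LLA Pool.Agent.Helper4.RD.st_LLB) dpn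

theorem main7 : ST_MAIN7 := st_MAIN7 main6p Pool.Agent.Helper12.RD6.st_MTZ

end Pool.Agent.Helper18.RD6
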