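import Pool.Agent.Helper18.RD.Stmts8
import Pool.Agent.Helper18.RD.MAIN5

/-! Project RD: all forms in one bound. -/

set_option autoImplicit false

namespace Pool.Agent.Helper18.RD6

open Finset Pool.Agent.Helper18.RD

/-- FIN -/
def ST_FIN : Prop := ∀ ε : ℝ, 0 < ε → ∃ C κ : ℝ, ∀ (N q1 q2 a P y z : ℕ) (D : ℝ) (R : Finset ℕ),
  1 ≤ N → 1 ≤ q1 → 1 ≤ q2 → 1 ≤ y → 1 ≤ z → Nat.Coprime q1 q2 → Nat.Coprime (q1 * q2) a →
  (N : ℝ) ^ ε ≤ P → 1 ≤ D →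
  (P : ℝ) ≤ D * (1 + (((q1 * q2).primeFactors.filter (fun p => p ≠ 2 ∧ p ≤ P)).card : ℝ)) →
  (N : ℝ) ^ ε * Real.sqrt y ≤
    (((Icc 1 y).filter (fun p => p.Prime ∧ ¬ p ∣ q1 * q2)).card : ℝ) →
  (∀ r ∈ R, Squarefree r ∧ Odd r ∧ Nat.Coprime r (q1 * q2) ∧ r ≤ z ∧ z < 2 * r) →
  (∀ r ∈ R, ∀ r' ∈ R, r ≠ r' → Nat.Coprime r r') → (N : ℝ) ^ ε ≤ (R.card : ℝ) →
  (((range N).filter (fun n => IsSquare (q1 * q2 * n + a))).card : ℝ) ≤
    C * min (min (min (min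
        (Real.sqrt N * ((q1 * q2 : ℕ) / (Nat.totient (q1 * q2) : ℝ)) +
          (N : ℝ) ^ ε * Real.sqrt (Real.log q1))
        ((1 + Real.log N) * (Real.sqrt N + Real.sqrt (Real.log q1))))
        (D ^ κ * (N : ℝ) ^ ε + D * Real.log q1 / P) + (q2.primeFactors.card : ℝ))
      (Real.sqrt N * min ((q1 * q2 : ℕ) / (Nat.totient (q1 * q2) : ℝ)) (1 + Real.log N) +
        (N : ℝ) ^ ε * y))
      ((N : ℝ) ^ ε * ((z : ℝ) + N / z))

theorem st_FIN (h5 : ST_MAIN5) (h6 : ST_MAIN6P) (h8 : ST_MAIN8) : ST_FIN := by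
  intro ε hε
  obtain ⟨C5, κ, h5⟩ := h5 ε hε
  obtain ⟨C6, hC6, h6⟩ := h6 ε hε
  obtain ⟨C8, hC8, h8⟩ := h8 ε hε
  refine ⟨max C5 0 + C6 + C8, κ, ?_⟩
  intro N q1 q2 a P y z D R hN hq1 hq2 hy hz hcop hcopa hNP hD hPD hNy hR1 hR2 hR
  have hq : 1 ≤ q1 * q2 := Nat.one_le_iff_ne_zero.mpr (by positivity)
  have hNr : (1 : ℝ) ≤ N := by exact_mod_cast hN
  have hN0 : (0 : ℝ) < N := by linarith
  have hlog0 : 0 ≤ Real.log (N : ℝ) := Real.log_natCast_nonneg N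
  have hL0 : 0 ≤ Real.log (q1 : ℝ) := Real.log_natCast_nonneg q1
  have hD0 : 0 < D := by linarith
  have hC50 : 0 ≤ max C5 0 := le_max_right _ _
  have h5' := h5 N q1 q2 a P D hN hq1 hq2 hcop hcopa hNP hD hPD
  have h6' := h6 N (q1 * q2) a y hN hq hy hcopa hNy
  have h8' := h8 N (q1 * q2) a z R hN hq hz hcopa ⟨hR1, hR2⟩ hR
  obtain ⟨X, hX⟩ : ∃ X : ℝ,
    X = (((range N).filter (fun n => IsSquare (q1 * q2 * n + a))).card : ℝ) := ⟨_, rfl⟩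
  rw [← hX] at h5' h6' h8' ⊢
  have hX0 : 0 ≤ X := by rw [hX]; positivity
  have key : ∀ A C' : ℝ, 0 ≤ A → 0 ≤ C' → X ≤ C' * A → C' ≤ max C5 0 + C6 + C8 →
      X ≤ (max C5 0 + C6 + C8) * A := by
    intro A C' hA _ h1 h2
    exact h1.trans (mul_le_mul_of_nonneg_right h2 hA)
  have hrat : 0 ≤ ((q1 * q2 : ℕ) : ℝ) / (Nat.totient (q1 * q2) : ℝ) := by positivity
  rw [mul_min_of_nonneg _ _ (by linarith), mul_min_of_nonneg _ _ (by linarith)]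
  refine le_min (le_min ?_ ?_) ?_
  · refine key _ (max C5 0) ?_ hC50 (h5'.trans ?_) (by linarith)
    · have hP0 : (0 : ℝ) ≤ P := Nat.cast_nonneg _
      have h1 : 0 ≤ (q2.primeFactors.card : ℝ) := Nat.cast_nonneg _
      refine add_nonneg (le_min (le_min ?_ ?_) ?_) h1 <;> positivity
    · apply mul_le_mul_of_nonneg_right (le_max_left _ _)
      have hP0 : (0 : ℝ) ≤ P := Nat.cast_nonneg _
      have h1 : 0 ≤ (q2.primeFactors.card : ℝ) := Nat.cast_nonneg _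
      refine add_nonneg (le_min (le_min ?_ ?_) ?_) h1 <;> positivity
  · refine key _ C6 ?_ hC6.le h6' (by linarith)
    have h1 : 0 ≤ min (((q1 * q2 : ℕ) : ℝ) / (Nat.totient (q1 * q2) : ℝ)) (1 + Real.log N) :=
      le_min hrat (by linarith)
    positivity
  · refine key _ C8 ?_ hC8.le (by rw [← mul_assoc]; exact h8') (by linarith)
    positivity

end Pool.Agent.Helper18.RD6
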