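import Pool.Agent.Helper18.RD6.All6
import Pool.Agent.Helper18.RD6.FIN
import Pool.Agent.Helper96.RD6.BILR
import Pool.Agent.Helper92.RD8.SMOR
import Pool.Agent.Helper27.RD6.BDJR
import Pool.Agent.Helper97.RD8.BADNR
import Pool.Agent.Helper97.RD8.MAIN8
import Pool.Agent.Helper9.RD6.DPNR

/-! Project RD, all forms: assembly. -/

set_option autoImplicit false

namespace Pool.Agent.Helper18.RD6

open Pool.Agent.Helper18.RD

theorem bdjr : ST_BDJR :=
  st_BDJR Pool.Agent.Helper27.RD6.st_MO1 ene Pool.Agent.Helper10.RD6.st_ENP (Pool.Agent.Helper92.RD8.st_SMOR st_BILR)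

theorem dpnr : ST_DPNR := Pool.Agent.Helper9.RD6.st_DPNR arn (st_BADNR bdjr) st_GT6 mlw6 end4

theorem main8 : ST_MAIN8 := st_MAIN8 (st_PL2 sv) dpnr

theorem fin : ST_FIN := st_FIN main5 main6p main8

end Pool.Agent.Helper18.RD6
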