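import Pool.Agent.Helper18.RD.Stmts9
import Pool.Agent.Helper18.RD.MAIN5
import Pool.Agent.Helper19.RD.MAIN10

/-! Project RD: all forms in one bound. -/

set_option autoImplicit false

namespace Pool.Agent.Helper18.RD6

open Finset Pool.Agent.Helper18.RD

/-- FIN9 -/
def ST_FIN9 : Prop := ∀ ε : ℝ, 0 < ε → ∃ C κ : ℝ, 0 < C ∧ ∀ (N q1 q2 a P y r l : ℕ) (D : ℝ),
  1 ≤ N → 1 ≤ q1 → 1 ≤ q2 → 1 ≤ y → 1 ≤ l → Nat.Coprime q1 q2 → Nat.Coprime (q1 * q2) a →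
  2 ≤ r → Squarefree r → Odd r → Nat.Coprime r (q1 * q2) →
  (∀ p : ℕ, p.Prime → p ∣ r → l ≤ p) →
  (N : ℝ) ^ ε * Real.sqrt y ≤
    (((Icc 1 y).filter (fun p => p.Prime ∧ ¬ p ∣ q1 * q2)).card : ℝ) →
  (N : ℝ) ^ ε ≤ P → 1 ≤ D →
  (P : ℝ) ≤ D * (1 + (((q1 * q2).primeFactors.filter (fun p => p ≠ 2 ∧ p ≤ P)).card : ℝ)) →
  (((range N).filter (fun n => IsSquare (q1 * q2 * n + a))).card : ℝ) ≤
    C * min (min (min (min
      ((N : ℝ) ^ ε * (Real.sqrt r + N / Real.sqrt r + N / l))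
      (Real.sqrt N * min ((q1 * q2 : ℕ) / (Nat.totient (q1 * q2) : ℝ)) (1 + Real.log N) +
        (N : ℝ) ^ ε * y))
      (Real.sqrt N * min ((q1 * q2 : ℕ) / (Nat.totient (q1 * q2) : ℝ)) (1 + Real.log N) +
        (N : ℝ) ^ ε * Real.sqrt (Real.log q1) + (q2.primeFactors.card : ℝ)))
      ((N : ℝ) ^ ε * (Real.sqrt N + Real.log q1 ^ (1 / 4 : ℝ)) + (q2.primeFactors.card : ℝ)))
      (D ^ κ * (N : ℝ) ^ ε + D * Real.log q1 / P + (q2.primeFactors.card : ℝ))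

theorem log_le_rpow (ε : ℝ) (hε : 0 < ε) (N : ℕ) (hN : 1 ≤ N) :
    1 + Real.log N ≤ (1 + 1 / ε) * (N : ℝ) ^ ε := by
  have hNr : (1 : ℝ) ≤ N := by exact_mod_cast hN
  have h1 : 1 ≤ (N : ℝ) ^ ε := Real.one_le_rpow hNr hε.le
  have h2 : Real.log N ≤ (N : ℝ) ^ ε / ε := Real.log_le_rpow_div (by linarith) hε
  have h3 : (1 + 1 / ε) * (N : ℝ) ^ ε = (N : ℝ) ^ ε + (N : ℝ) ^ ε / ε := by ring
  linarith

theorem st_FIN9 (h5 : ST_MAIN5) (h6 : ST_MAIN6P) (h9 : ST_MAIN9)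
    (h10 : Pool.Agent.Helper19.RD.ST_MAIN10) : ST_FIN9 := by
  intro ε hε
  obtain ⟨C5, κ, h5⟩ := h5 ε hε
  obtain ⟨C6, hC6, h6⟩ := h6 ε hε
  obtain ⟨C9, hC9, h9⟩ := h9 ε hε
  obtain ⟨C8, hC8, h10⟩ := h10 ε hε
  have hK1 : (1 : ℝ) ≤ 1 + 1 / ε := by
    have : 0 < 1 / ε := by positivity
    linarith
  obtain ⟨K, hK⟩ : ∃ K : ℝ, K = 1 + 1 / ε := ⟨_, rfl⟩
  rw [← hK] at hK1
  have hC50 : 0 ≤ max C5 0 := le_max_right _ _
  refine ⟨max C5 0 * K + C6 + C9 + C8, κ, by positivity, ?_⟩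
  intro N q1 q2 a P y r l D hN hq1 hq2 hy hl hcop hcopa hr2 hrs hro hrc hrl hNy hNP hD hPD
  have hq : 1 ≤ q1 * q2 := Nat.one_le_iff_ne_zero.mpr (by positivity)
  have hNr : (1 : ℝ) ≤ N := by exact_mod_cast hN
  have hN0 : (0 : ℝ) < N := by linarith
  have hlog0 : 0 ≤ Real.log (N : ℝ) := Real.log_natCast_nonneg N
  have hL0 : 0 ≤ Real.log (q1 : ℝ) := Real.log_natCast_nonneg q1
  have hD0 : 0 < D := by linarith
  have hNε : 1 ≤ (N : ℝ) ^ ε := Real.one_le_rpow hNr hε.le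
  have hLK : 1 + Real.log N ≤ K * (N : ℝ) ^ ε := by rw [hK]; exact log_le_rpow ε hε N hN
  have h5' := h5 N q1 q2 a P D hN hq1 hq2 hcop hcopa hNP hD hPD
  have h6' := h6 N (q1 * q2) a y hN hq hy hcopa hNy
  have h9' := h9 N (q1 * q2) a r l hN hq hcopa hr2 hrs hro hrc hl hrl
  have h10' := h10 N q1 q2 a hN hq1 hq2 hcop hcopa
  obtain ⟨X, hX⟩ : ∃ X : ℝ,
    X = (((range N).filter (fun n => IsSquare (q1 * q2 * n + a))).card : ℝ) := ⟨_, rfl⟩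
  rw [← hX] at h5' h6' h9' h10' ⊢
  obtain ⟨CC, hCC⟩ : ∃ CC : ℝ, CC = max C5 0 * K + C6 + C9 + C8 := ⟨_, rfl⟩
  have hC5K : 0 ≤ max C5 0 * K := by positivity
  have hCC0 : 0 ≤ CC := by rw [hCC]; positivity
  obtain ⟨ρ, hρ⟩ : ∃ ρ : ℝ, ρ = ((q1 * q2 : ℕ) : ℝ) / (Nat.totient (q1 * q2) : ℝ) := ⟨_, rfl⟩
  have hρ0 : 0 ≤ ρ := by rw [hρ]; positivity
  rw [← hρ] at h5' h6' ⊢
  obtain ⟨om, hom⟩ : ∃ om : ℝ, om = (q2.primeFactors.card : ℝ) := ⟨_, rfl⟩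
  have hom0 : 0 ≤ om := by rw [hom]; positivity
  rw [← hom] at h5' h10' ⊢
  rw [← hCC]
  have hP0 : (0 : ℝ) ≤ P := Nat.cast_nonneg _
  obtain ⟨L, hL⟩ : ∃ L : ℝ, L = 1 + Real.log N := ⟨_, rfl⟩
  have hL1 : 1 ≤ L := by rw [hL]; linarith
  rw [← hL] at h5' h6' hLK ⊢
  obtain ⟨s, hs⟩ : ∃ s : ℝ, s = Real.sqrt (Real.log q1) := ⟨_, rfl⟩
  have hs0 : 0 ≤ s := by rw [hs]; exact Real.sqrt_nonneg _
  rw [← hs] at h5' ⊢
  obtain ⟨w, hw⟩ : ∃ w : ℝ, w = Real.sqrt N := ⟨_, rfl⟩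
  have hw0 : 0 ≤ w := by rw [hw]; exact Real.sqrt_nonneg _
  rw [← hw] at h5' h6' h10' ⊢
  obtain ⟨E, hE⟩ : ∃ E : ℝ, E = (N : ℝ) ^ ε := ⟨_, rfl⟩
  rw [← hE] at h5' h6' h9' h10' hNε hLK ⊢
  obtain ⟨Z, hZ⟩ : ∃ Z : ℝ, Z = D ^ κ * E + D * Real.log q1 / P := ⟨_, rfl⟩
  rw [← hZ] at h5' ⊢
  have hE0 : 0 < E := by linarith
  have hZ0 : 0 ≤ Z := by rw [hZ]; positivity
  have hmin0 : 0 ≤ min (min (w * ρ + E * s) (L * (w + s))) Z :=
    le_min (le_min (by positivity) (by positivity)) hZ0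
  have hX5 : X ≤ max C5 0 * (min (min (w * ρ + E * s) (L * (w + s))) Z + om) :=
    h5'.trans (mul_le_mul_of_nonneg_right (le_max_left _ _) (by linarith))
  have hy0 : (0 : ℝ) ≤ y := Nat.cast_nonneg _
  have hCC5 : max C5 0 * K ≤ CC := by rw [hCC]; linarith
  have hCC6 : C6 ≤ CC := by rw [hCC]; linarith
  have hCC9 : C9 ≤ CC := by rw [hCC]; linarith
  have hCC8 : C8 ≤ CC := by rw [hCC]; linarith
  have hCC5' : max C5 0 ≤ CC := by
    refine le_trans ?_ hCC5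
    nlinarith
  have hmρ : 0 ≤ min ρ L := le_min hρ0 (by linarith)
  rw [mul_min_of_nonneg _ _ hCC0, mul_min_of_nonneg _ _ hCC0, mul_min_of_nonneg _ _ hCC0,
    mul_min_of_nonneg _ _ hCC0]
  refine le_min (le_min (le_min (le_min ?_ ?_) ?_) ?_) ?_
  · refine h9'.trans ?_
    rw [mul_assoc]
    refine mul_le_mul_of_nonneg_right hCC9 ?_
    positivity
  · exact h6'.trans (mul_le_mul_of_nonneg_right hCC6 (by positivity))
  · have h1 : min (min (w * ρ + E * s) (L * (w + s))) Z + om ≤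
        K * (w * min ρ L + E * s + om) := by
      have h2 : min (min (w * ρ + E * s) (L * (w + s))) Z ≤
          min (w * ρ + E * s) (L * (w + s)) := min_le_left _ _
      have hwm : 0 ≤ w * min ρ L := by positivity
      have hEs : 0 ≤ E * s := by positivity
      rcases le_total ρ L with h3 | h3
      · have h4 := min_le_left (w * ρ + E * s) (L * (w + s))
        rw [min_eq_left h3] at hwm ⊢
        have h5 : 1 * (w * ρ + E * s + om) ≤ K * (w * ρ + E * s + om) :=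
          mul_le_mul_of_nonneg_right hK1 (by positivity)
        linarith
      · have h4 := min_le_right (w * ρ + E * s) (L * (w + s))
        rw [min_eq_right h3] at hwm ⊢
        have h5 : L * s ≤ K * E * s := mul_le_mul_of_nonneg_right hLK hs0
        have h6 : 1 * (w * L + om) ≤ K * (w * L + om) :=
          mul_le_mul_of_nonneg_right hK1 (by positivity)
        nlinarith
    calc X ≤ max C5 0 * (min (min (w * ρ + E * s) (L * (w + s))) Z + om) := hX5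
      _ ≤ max C5 0 * (K * (w * min ρ L + E * s + om)) := mul_le_mul_of_nonneg_left h1 hC50
      _ = max C5 0 * K * (w * min ρ L + E * s + om) := by ring
      _ ≤ CC * (w * min ρ L + E * s + om) := mul_le_mul_of_nonneg_right hCC5 (by positivity)
  · refine h10'.trans ?_
    refine mul_le_mul_of_nonneg_right hCC8 ?_
    positivity
  · refine hX5.trans ?_
    have h1 : min (min (w * ρ + E * s) (L * (w + s))) Z + om ≤ Z + om := by
      have := min_le_right (min (w * ρ + E * s) (L * (w + s))) Z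
      linarith
    exact (mul_le_mul_of_nonneg_left h1 hC50).trans
      (mul_le_mul_of_nonneg_right hCC5' (by linarith))

end Pool.Agent.Helper18.RD6
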