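import Pool.Agent.Helper18.RD6.All6
import Pool.Agent.Helper18.RD6.SPX
import Pool.Agent.Helper18.RD6.FIN9
import Pool.Agent.Helper96.RD6.BILR
import Pool.Agent.Helper85.RD9.PGX
import Pool.Agent.Helper85.RD9.MAIN9
import Pool.Agent.Helper19.RD.All10

/-! Project RD, all forms: assembly. -/

set_option autoImplicit false

namespace Pool.Agent.Helper18.RD6

open Pool.Agent.Helper18.RD

theorem main9 : ST_MAIN9 :=
  Pool.Agent.Helper85.RD9.st_MAIN9 Pool.Agent.Helper19.RD.a1 Pool.Agent.Helper85.RD9.st_PGX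
    (st_SPX st_BILR)

theorem fin9 : ST_FIN9 := st_FIN9 main5 main6p main9 Pool.Agent.Helper19.RD.main10

end Pool.Agent.Helper18.RD6
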