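import Pool.Agent.Helper18.RD6.FIN14

/-! Project RD: all forms in one bound, the smooth part free in the fourth bound. -/

set_option autoImplicit false

namespace Pool.Agent.Helper18.RD6

open Finset Pool.Agent.Helper18.RD

/-- T7: the `N`-smooth part of `q` is free. -/
def ST_T7 : Prop := ∀ ε : ℝ, 0 < ε → ∃ C : ℝ, 0 < C ∧ ∀ N q0 q1 q2 a : ℕ, 1 ≤ N → 1 ≤ q0 →
  1 ≤ q1 → 1 ≤ q2 → Nat.Coprime q0 q1 → Nat.Coprime (q0 * q1) q2 →
  Nat.Coprime (q0 * q1 * q2) a → (∀ p : ℕ, p.Prime → p ∣ q0 → p ≤ N) →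
  (((range N).filter (fun n => IsSquare (q0 * q1 * q2 * n + a))).card : ℝ) ≤
    C * ((N : ℝ) ^ ε * (Real.sqrt N + Real.log q1 ^ (1 / 4 : ℝ)) + (q2.primeFactors.card : ℝ))

/-- FIN15 -/
def ST_FIN15 : Prop := ∀ ε K : ℝ, 0 < ε → 0 < K → ∃ C κ : ℝ, 0 < C ∧
  ∀ (N q q0 q1 q2 a P y r l x u : ℕ) (D : ℝ),
  1 ≤ N → 1 ≤ q → 1 ≤ y → 1 ≤ l → q = q0 * q1 * q2 → Nat.Coprime q0 q1 →
  Nat.Coprime (q0 * q1) q2 → Nat.Coprime q a → (∀ p : ℕ, p.Prime → p ∣ q0 → p ≤ N) →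
  2 ≤ r → Squarefree r → Odd r → Nat.Coprime r q →
  (∀ p : ℕ, p.Prime → p ∣ r → l ≤ p) →
  (N : ℝ) ^ ε * Real.sqrt y ≤ (((Icc 1 y).filter (fun p => p.Prime ∧ ¬ p ∣ q)).card : ℝ) →
  (N : ℝ) ^ ε ≤ P → 1 ≤ D →
  (P : ℝ) ≤ D * (1 + ((q.primeFactors.filter (fun p => p ≠ 2 ∧ p ≤ P)).card : ℝ)) →
  (((range N).filter (fun n => IsSquare (q * n + a))).card : ℝ) ≤
    C * min (min (min (min (min
      ((N : ℝ) ^ ε * (Real.sqrt r + N / Real.sqrt r + N / (l : ℝ) ^ K))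
      (Real.sqrt N * min (q / (Nat.totient q : ℝ)) (1 + Real.log N) + (N : ℝ) ^ ε * y))
      (Real.sqrt N * min (q / (Nat.totient q : ℝ)) (1 + Real.log N) +
        (N : ℝ) ^ ε * Real.sqrt (Real.log (q0 * q1 : ℕ)) + (q2.primeFactors.card : ℝ)))
      ((N : ℝ) ^ ε * (Real.sqrt N + Real.log q1 ^ (1 / 4 : ℝ)) + (q2.primeFactors.card : ℝ)))
      (D ^ κ * (N : ℝ) ^ ε * (Real.sqrt N + Real.sqrt (Real.log (q0 * q1 : ℕ) / P)) +
        (q2.primeFactors.card : ℝ)))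
      (D ^ κ * (N : ℝ) ^ ε + D * Real.log (q0 * q1 : ℕ) / P + (q2.primeFactors.card : ℝ)) ∧
  (u ≤ (q.primeFactors.filter (fun p => x < 2 * p ∧ p ≤ x)).card → N ≤ x ^ 2 →
    (x : ℝ) * (1 + Real.log x) ≤ (N : ℝ) ^ (1 / 4800 : ℝ) * u →
    C * (1 + Real.log N) * Real.log q ≤ (u : ℝ) ^ 2 →
    (((range N).filter (fun n => IsSquare (q * n + a))).card : ℝ) ≤ C * Real.sqrt N)

theorem st_FIN15 (h14 : ST_FIN14) (h7 : ST_T7) : ST_FIN15 := by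
  intro ε K hε hK
  obtain ⟨C14, κ, hC14, h14⟩ := h14 ε K hε hK
  obtain ⟨C7, hC7, h7⟩ := h7 ε hε
  refine ⟨C14 + C7, κ, by positivity, ?_⟩
  intro N q q0 q1 q2 a P y r l x u D hN hq hy hl hqe hc01 hc2 hcopa hsm hr2 hrs hro hrc hrl hNy
    hNP hD hPD
  subst hqe
  have hq2 : 1 ≤ q2 := Nat.pos_of_ne_zero (by rintro rfl; simp at hq)
  have hq01 : 1 ≤ q0 * q1 := Nat.pos_of_ne_zero (by rintro h; rw [h] at hq; simp at hq)
  have hq0 : 1 ≤ q0 := Nat.pos_of_ne_zero (by rintro rfl; simp at hq01)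
  have hq1 : 1 ≤ q1 := Nat.pos_of_ne_zero (by rintro rfl; simp at hq01)
  obtain ⟨hmain, hsm14⟩ := h14 N (q0 * q1) q2 a P y r l x u D hN hq01 hq2 hy hl hc2 hcopa hr2 hrs
    hro hrc hrl hNy hNP hD hPD
  have hnew := h7 N q0 q1 q2 a hN hq0 hq1 hq2 hc01 hc2 hcopa hsm
  have hD0 : 0 < D := by linarith
  have hNr : (1 : ℝ) ≤ N := by exact_mod_cast hN
  have hN0 : (0 : ℝ) < N := by linarith
  have hL0 : 0 ≤ Real.log ((q0 * q1 : ℕ) : ℝ) := Real.log_natCast_nonneg _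
  have hL1 : 0 ≤ Real.log (q1 : ℝ) := Real.log_natCast_nonneg _
  have hlogN : 0 ≤ Real.log (N : ℝ) := Real.log_natCast_nonneg N
  have hP0 : (0 : ℝ) < P := lt_of_lt_of_le (by positivity) hNP
  have hCC : 0 ≤ C14 + C7 := by positivity
  have hCa : C14 ≤ C14 + C7 := by linarith
  have hCb : C7 ≤ C14 + C7 := by linarith
  have hmρ : 0 ≤ min (((q0 * q1 * q2 : ℕ) : ℝ) / (Nat.totient (q0 * q1 * q2) : ℝ))
      (1 + Real.log N) := le_min (by positivity) (by linarith)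
  rw [mul_min_of_nonneg _ _ hC14.le, mul_min_of_nonneg _ _ hC14.le, mul_min_of_nonneg _ _ hC14.le,
    mul_min_of_nonneg _ _ hC14.le, mul_min_of_nonneg _ _ hC14.le] at hmain
  obtain ⟨h12345, h6⟩ := le_min_iff.1 hmain
  obtain ⟨h1234, h5⟩ := le_min_iff.1 h12345
  obtain ⟨h123, h4⟩ := le_min_iff.1 h1234
  obtain ⟨h12', h3⟩ := le_min_iff.1 h123
  obtain ⟨h1, h2⟩ := le_min_iff.1 h12'
  constructor
  · rw [mul_min_of_nonneg _ _ hCC, mul_min_of_nonneg _ _ hCC, mul_min_of_nonneg _ _ hCC,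
      mul_min_of_nonneg _ _ hCC, mul_min_of_nonneg _ _ hCC]
    refine le_min (le_min (le_min (le_min (le_min ?_ ?_) ?_) ?_) ?_) ?_
    · exact h1.trans (mul_le_mul_of_nonneg_right hCa (by positivity))
    · exact h2.trans (mul_le_mul_of_nonneg_right hCa (by positivity))
    · exact h3.trans (mul_le_mul_of_nonneg_right hCa (by positivity))
    · exact hnew.trans (mul_le_mul_of_nonneg_right hCb (by positivity))
    · exact h5.trans (mul_le_mul_of_nonneg_right hCa (by positivity))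
    · exact h6.trans (mul_le_mul_of_nonneg_right hCa (by positivity))
  · intro hu hNx g1 g2
    refine (hsm14 hu hNx g1 (le_trans ?_ g2)).trans
      (mul_le_mul_of_nonneg_right hCa (Real.sqrt_nonneg _))
    have hlogq : 0 ≤ Real.log ((q0 * q1 * q2 : ℕ) : ℝ) := Real.log_natCast_nonneg _
    gcongr

end Pool.Agent.Helper18.RD6
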